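import Pool.Agent.Lib.MP_d1327c_gt.ZV.Spec

/-!
# MP_d1327c_gt, the general theorem: the assembly (module ASV)
-/

set_option autoImplicit false

open Set Topology TopologicalSpace

namespace MPd1327c.ZV

open MPd1327c.ZH

universe u v w

namespace ASVM

/-- closed metrizable subspaces of compact spaces are second countable -/
private theorem secCount {K : Type w} [TopologicalSpace K] [CompactSpace K] (F : Set K)
    (hF : IsClosed F) (hm : MetrizableSpace F) : SecondCountableTopology F := by
  have h1 : CompactSpace F := isCompact_iff_compactSpace.1 hF.isCompact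
  let _ := metrizableSpaceMetric F
  infer_instance

/-- levels and pieces are pulled back by continuous maps -/
private theorem pcsPull {I : Type v} [LinearOrder I] {K : Type u} {Z : Type w}
    [TopologicalSpace K] [TopologicalSpace Z] {Q : Type*} (lev : K → I) (q : K → Q)
    (h : Pcs lev q) (p : Z → K) (hp : Continuous p) :
    Pcs (fun z => lev (p z)) (fun z => q (p z)) where
  closed α := (h.closed α).preimage hp
  lev_eq z z' hz := h.lev_eq (p z) (p z') hz
  opn z := by
    obtain ⟨U, hU, hz, hUP⟩ := h.opn (p z)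
    exact ⟨p ⁻¹' U, hU.preimage hp, hz, fun z' hz' => hUP (p z') hz'⟩

end ASVM

open ASVM

/-- the module ASV -/
theorem specASV (hPCV : SpecPCV.{v, w}) (hZDV : SpecZDV.{v, w}) (hGEV : SpecGEV.{w, v, max v w})
    (hSLV : SpecSLV.{w, v, max v w}) (hCHV : SpecCHV.{u, v, max v w})
    (hTRV : SpecTRV.{max u v w, v}) : SpecASV.{u, v, w} := by
  intro I _ _ _ hI S hS A K _ _ _ Q o F f lev q hFc hFm hFmono ho hFun hf hP hMS X hX hsupp
  have hsc : ∀ a i, SecondCountableTopology (F a i) := fun a i =>
    secCount _ (hFc a i) (hFm a i)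
  choose q' hP' hqq hbd using fun a =>
    hPCV I hI (K a) (Q a) (F a) (lev a) (q a) (hFc a) (hFmono a) (hFun a) (hP a)
  choose Z tZ cZ hZ dZ p D hpc hps hpo hpF hAlg hSep using fun a =>
    hZDV I hI S (K a) (Set (K a)) (o a) (F a) (f a) (lev a) (q' a) (hFc a) (hFmono a) (hsc a)
      (ho a) (hFun a) (hf a) (hP' a)
  have hL' : ∀ a, Pcs (fun z => lev a (p a z)) (fun z => q' a (p a z)) := fun a =>
    pcsPull _ _ (hP' a) (p a) (hpc a)
  have hmono' : ∀ a, Monotone (fun i => p a ⁻¹' F a i) := fun a i j hij =>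
    preimage_mono (hFmono a hij)
  have hM : ∀ a, ∃ M : I → Set (Set (Z a)), ModS S (fun i => p a ⁻¹' F a i) M := by
    intro a
    obtain ⟨G, hG⟩ := hGEV I hI S (Z a) (Set (K a)) (fun i => p a ⁻¹' F a i)
      (fun z => lev a (p a z)) (fun z => q' a (p a z)) (D a)
      (fun i => (hFc a i).preimage (hpc a)) (hmono' a) (hpF a) (hL' a) (hAlg a) (by
        intro z₀
        rcases hMS a (p a z₀) with hm | ⟨i, hi⟩
        · obtain ⟨j, hj⟩ := hbd a (p a z₀) hm
          exact Or.inl ⟨j, fun z hz => hj (p a z) hz⟩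
        · refine Or.inr (hSep a z₀ ⟨i, fun δ hδ hiδ y hy hyx y' hy' hl hj => ?_⟩)
          exact hi δ hδ hiδ y hy (hqq a y _ hyx) y' hy' hl hj)
    exact hSLV I hI S hS (Z a) (Set (K a)) _ _ _ G (fun i => (hFc a i).preimage (hpc a)) (hmono' a)
      (hL' a) hG
  choose M hM using hM
  choose o' ho' using fun a => hps a (o a)
  let X' : Set (∀ a, Z a) := {z | (fun a => p a (z a)) ∈ X}
  have hcont : Continuous fun z : (∀ a, Z a) => (fun a => p a (z a)) :=
    continuous_pi fun a => (hpc a).comp (continuous_apply a)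
  have hX' : IsClosed X' := hX.preimage hcont
  have hcX' : CompactSpace X' := isCompact_iff_compactSpace.1 hX'.isCompact
  have hsupp' : ∀ x ∈ X', {a | x a ≠ o' a}.Countable := by
    intro x hx
    refine (hsupp (fun a => p a (x a)) hx).mono ?_
    intro a ha h
    exact ha (hpo a _ _ h (ho' a))
  refine ⟨X', inferInstance, hcX', inferInstance, fun z => ⟨fun a => p a (z.1 a), z.2⟩,
    isTopologicalBasis_isClopen, ?_, ?_, ?_⟩
  · exact (hcont.comp continuous_subtype_val).subtype_mk _
  · intro x
    choose z hz using fun a => hps a (x.1 a)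
    have hz' : (fun a => p a (z a)) = x.1 := funext hz
    exact ⟨⟨z, by show (fun a => p a (z a)) ∈ X; rw [hz']; exact x.2⟩, Subtype.ext hz'⟩
  · refine hTRV I hI S hS X' {l : Set X' | ∃ a, ∃ b : Set (Z a), IsClopen b ∧
      l = {x : X' | x.1 a ∈ b}} ?_ ?_ ?_
    · rintro _ ⟨a, b, hb, rfl⟩
      exact hb.preimage ((continuous_apply a).comp continuous_subtype_val)
    · intro y y' h
      refine Subtype.ext (funext fun a => ?_)
      by_contra hne
      obtain ⟨b, hb, h1, h2⟩ := exists_isClopen_of_totally_separated hne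
      exact h2 ((h {x : X' | x.1 a ∈ b} ⟨a, b, hb, rfl⟩).1 h1)
    · intro E
      exact hCHV I hI S A Z o' (fun a i => p a ⁻¹' F a i) M hmono'
        (fun a i => by show p a (o' a) ∈ F a i; rw [ho' a]; exact ho a i)
        (fun a z => hFun a (p a z)) hM X' hsupp' E

end MPd1327c.ZV
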