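import Pool.Agent.Lib.MP_d1327c_gt.ZH.Defs

/-!
# MP_d1327c_gt, the general theorem: definitions, and the club filter restricted to `S`

`I` is a well-ordered uncountable set with countable initial segments, that is, `ω₁`, and `S ⊆ I` is
stationary. Words, `TT`, `bound`, `exists_gt'`, `Iic_countable` are those of `ZH/Defs.lean`.
-/

set_option autoImplicit false

open Set Topology TopologicalSpace

namespace MPd1327c.ZV

open MPd1327c.ZH

universe u v w

/-! ## Large sets (sets which contain the intersection of `S` with a club) -/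

section club

variable {I : Type v} [LinearOrder I] {S : Set I}

/-- `S` is stationary -/
def Stat (S : Set I) : Prop := ∀ h : I → I, ∃ δ ∈ S, (Iio δ).Nonempty ∧ ∀ i < δ, h i < δ

/-- a set of `δ` is large if it contains all `δ ∈ S`, not the least element, which are closed under
some function `h` -/
def LgS (S : Set I) (P : Set I) : Prop :=
  ∃ h : I → I, ∀ δ ∈ S, (Iio δ).Nonempty → (∀ i < δ, h i < δ) → δ ∈ P

theorem LgS.mono {P Q : Set I} (h : LgS S P) (hPQ : P ⊆ Q) : LgS S Q := by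
  obtain ⟨f, hf⟩ := h
  exact ⟨f, fun δ h0 h1 h2 => hPQ (hf δ h0 h1 h2)⟩

theorem LgS.self : LgS S S := ⟨fun i => i, fun _ h _ _ => h⟩

theorem LgS.inter {P Q : Set I} (h : LgS S P) (h' : LgS S Q) : LgS S (P ∩ Q) := by
  obtain ⟨f, hf⟩ := h
  obtain ⟨g, hg⟩ := h'
  exact ⟨fun i => max (f i) (g i), fun δ h0 h1 h2 =>
    ⟨hf δ h0 h1 fun i hi => (le_max_left _ _).trans_lt (h2 i hi),
      hg δ h0 h1 fun i hi => (le_max_right _ _).trans_lt (h2 i hi)⟩⟩

theorem LgS.nonmin : LgS S {δ : I | (Iio δ).Nonempty} :=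
  ⟨fun i => i, fun _ _ h _ => h⟩

/-- the elements of `S` closed under a function -/
theorem LgS.closed (f : I → I) : LgS S {δ | δ ∈ S ∧ ∀ i < δ, f i < δ} :=
  ⟨f, fun _ h0 _ h2 => ⟨h0, h2⟩⟩

/-- diagonal intersections -/
theorem LgS.diag [Uncountable I] (hI : ∀ i : I, (Iio i).Countable) {P : I → Set I}
    (h : ∀ i, LgS S (P i)) : LgS S {δ | ∀ i < δ, δ ∈ P i} := by
  choose f hf using h
  have h1 : ∀ i, ∃ b, ∀ j ≤ i, ∀ k ≤ i, f j k < b := by
    intro i
    obtain ⟨b, hb⟩ := bound hI (image2 f (Iic i) (Iic i))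
      ((Iic_countable hI i).image2 (Iic_countable hI i) f)
    exact ⟨b, fun j hj k hk => hb _ ⟨j, hj, k, hk, rfl⟩⟩
  choose g hg using h1
  refine ⟨g, fun δ hS h0 hδ i hi => hf i δ hS h0 fun k hk => ?_⟩
  exact (hg (max i k) i (le_max_left _ _) k (le_max_right _ _)).trans (hδ _ (max_lt hi hk))

/-- countable intersections -/
theorem LgS.iInter [Uncountable I] (hI : ∀ i : I, (Iio i).Countable) {ι : Type*} [Countable ι]
    {P : ι → Set I} (h : ∀ n, LgS S (P n)) : LgS S {δ | ∀ n, δ ∈ P n} := by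
  choose f hf using h
  have h1 : ∀ i, ∃ b, ∀ n, f n i < b := by
    intro i
    obtain ⟨b, hb⟩ := bound hI (range fun n => f n i) (countable_range _)
    exact ⟨b, fun n => hb _ ⟨n, rfl⟩⟩
  choose g hg using h1
  exact ⟨g, fun δ hS h0 hδ n => hf n δ hS h0 fun k hk => (hg k n).trans (hδ k hk)⟩

theorem LgS.biInter [Uncountable I] (hI : ∀ i : I, (Iio i).Countable) {ι : Type*} {s : Set ι}
    (hs : s.Countable) {P : ι → Set I} (h : ∀ n ∈ s, LgS S (P n)) :
    LgS S {δ | ∀ n ∈ s, δ ∈ P n} := by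
  have : Countable s := hs.to_subtype
  refine (LgS.iInter hI (P := fun n : s => P n) fun n => h n n.2).mono ?_
  exact fun δ hδ n hn => hδ ⟨n, hn⟩

theorem LgS.tail (i₀ : I) : LgS S {δ | i₀ < δ} :=
  ⟨fun _ => i₀, fun _ _ ⟨k, hk⟩ h => h k hk⟩

/-- large sets are unbounded -/
theorem LgS.exists_gt (hS : Stat S) {P : Set I} (h : LgS S P) (i₀ : I) : ∃ δ ∈ P, i₀ < δ := by
  obtain ⟨f, hf⟩ := h
  obtain ⟨δ, h1, ⟨k, hk⟩, h3⟩ := hS fun i => max (f i) i₀
  exact ⟨δ, hf δ h1 ⟨k, hk⟩ fun i hi => (le_max_left _ _).trans_lt (h3 i hi),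
    (le_max_right _ _).trans_lt (h3 k hk)⟩

/-- the limit points of a large set -/
theorem LgS.lim (hS : Stat S) {P : Set I} (h : LgS S P) :
    LgS S {δ | ∀ i < δ, ∃ j ∈ P, i < j ∧ j < δ} := by
  choose g hg1 hg2 using fun i => h.exists_gt hS i
  exact ⟨g, fun δ _ _ hδ i hi => ⟨g i, hg1 i, hg2 i, hδ i hi⟩⟩

end club

/-! ## Pieces and levels of a space -/

section levels

variable {I : Type v} [LinearOrder I] {Z : Type w} [TopologicalSpace Z] {Q : Type u}

/-- `q z` is the piece of `z` and `lev z` its level; points of one piece have the same level, the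
union of the pieces of level at least `α` is closed, and every piece is relatively open in the union
of the pieces of at least its level -/
structure Pcs (lev : Z → I) (q : Z → Q) : Prop where
  closed : ∀ α, IsClosed {z | α ≤ lev z}
  lev_eq : ∀ z z', q z = q z' → lev z = lev z'
  opn : ∀ z, ∃ U, IsOpen U ∧ z ∈ U ∧ ∀ z' ∈ U, lev z ≤ lev z' → q z' = q z

/-- for `δ ∈ S` above `i` the functions `f j`, `j < δ`, distinguish every point of `F δ` in the piece
of `x` from all other points of `F δ` of at least its level -/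
def SepK (S : Set I) (F : I → Set Z) (f : I → Z → ℝ) (lev : Z → I) (q : Z → Q) (x : Z) (i : I) :
    Prop :=
  ∀ δ ∈ S, i < δ → ∀ y ∈ F δ, q y = q x → ∀ y' ∈ F δ, lev x ≤ lev y' →
    (∀ j < δ, f j y = f j y') → y = y'

/-- for `δ ∈ S` above `i` the sets in `D j`, `j < δ`, distinguish every point of `F δ` in the piece
of `x` from all other points of `F δ` of at least its level -/
def SepD (S : Set I) (F : I → Set Z) (D : I → Set (Set Z)) (lev : Z → I) (q : Z → Q) (x : Z)
    (i : I) : Prop :=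
  ∀ δ ∈ S, i < δ → ∀ z ∈ F δ, q z = q x → ∀ z' ∈ F δ, lev x ≤ lev z' → z ≠ z' →
    ∃ j < δ, ∃ d ∈ D j, z ∈ d ∧ z' ∉ d

/-- countable increasing algebras of clopen sets -/
structure Alg (D : I → Set (Set Z)) : Prop where
  mono : Monotone D
  cnt : ∀ i, (D i).Countable
  clo : ∀ i, ∀ d ∈ D i, IsClopen d
  uni : ∀ i, univ ∈ D i
  emp : ∀ i, ∅ ∈ D i
  union : ∀ i, ∀ c ∈ D i, ∀ d ∈ D i, c ∪ d ∈ D i
  inter : ∀ i, ∀ c ∈ D i, ∀ d ∈ D i, c ∩ d ∈ D i

/-- countable increasing sets `G j` of clopen sets such that, for all `j` in a large set, the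
relatively clopen subsets `C` of `{z ∈ TT F j | lev z₀ ≤ lev z}` which are contained in the piece of
`z₀` are traces of members of `G j'`, `j' < j`, if the piece meets some `F k`, `k < j` -/
structure GenS (S : Set I) (F : I → Set Z) (lev : Z → I) (q : Z → Q) (G : I → Set (Set Z)) :
    Prop where
  mono : Monotone G
  cnt : ∀ i, (G i).Countable
  clo : ∀ i, ∀ c ∈ G i, IsClopen c
  fit : LgS S {j | ∀ z₀, (∃ k < j, ∃ z ∈ F k, q z = q z₀) → ∀ C : Set Z, IsClosed C →
    (∀ z ∈ C, z ∈ TT F j ∧ q z = q z₀) → IsClosed {z | z ∈ TT F j ∧ lev z₀ ≤ lev z ∧ z ∉ C} →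
    ∃ j' < j, ∃ g ∈ G j', ∀ z ∈ TT F j, lev z₀ ≤ lev z → (z ∈ g ↔ z ∈ C)}

/-- countable sets `M i` of clopen sets such that for every large `Δ`, for all `i` in a large set,
every clopen set agrees on some `TT F j`, `j ≤ i`, `j ∈ Δ`, with a member of `M j'`, `j' < j` -/
structure ModS (S : Set I) (F : I → Set Z) (M : I → Set (Set Z)) : Prop where
  mono : Monotone M
  cnt : ∀ i, (M i).Countable
  clo : ∀ i, ∀ c ∈ M i, IsClopen c
  one : ∀ Δ : Set I, LgS S Δ → LgS S {i | ∀ b : Set Z, IsClopen b → ∃ j ∈ Δ, j ≤ i ∧ ∃ j' < j,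
    ∃ c ∈ M j', ∀ z ∈ TT F j, (z ∈ b ↔ z ∈ c)}

end levels

/-- increasing subsets `K i` of `Y` and increasing countable sets `M i` of clopen sets such that for
every large `Δ`, for all `i` in a large set, every member of `𝔸` agrees on some `K j`, `j ≤ i`,
`j ∈ Δ`, with a member of `M j'`, `j' < j` -/
structure SysS {I : Type v} [LinearOrder I] (S : Set I) {Y : Type u} [TopologicalSpace Y]
    (𝔸 : Set (Set Y)) (K : I → Set Y) (M : I → Set (Set Y)) : Prop where
  monoK : Monotone K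
  monoM : Monotone M
  cnt : ∀ i, (M i).Countable
  clo : ∀ i, ∀ l ∈ M i, IsClopen l
  one : ∀ Δ : Set I, LgS S Δ → LgS S {i | ∀ l ∈ 𝔸, ∃ j ∈ Δ, j ≤ i ∧ ∃ j' < j,
    ∃ l' ∈ M j', ∀ y ∈ K j, (y ∈ l ↔ y ∈ l')}

end MPd1327c.ZV
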