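import Pool.Agent.Lib.MP_d1327c_gt.ZV.Spec

/-!
# MP_d1327c_gt, module GEV: the sets `G j`
-/

set_option autoImplicit false

open Set Topology TopologicalSpace

namespace MPd1327c.ZV

open MPd1327c.ZH

universe u v w

namespace GEVM

variable {I : Type v} [LinearOrder I] {Z : Type w} [TopologicalSpace Z] {Q : Type u}

/-- the levels are bounded -/
theorem exists_bound [Uncountable I] (hI : ∀ i : I, (Iio i).Countable) [CompactSpace Z]
    {lev : Z → I} (hcl : ∀ α, IsClosed {z | α ≤ lev z}) : ∃ θ, ∀ z, lev z < θ := by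
  by_contra hcon
  push Not at hcon
  have hne : Nonempty I := by
    by_contra h
    rw [not_nonempty_iff] at h
    exact not_countable (α := I) inferInstance
  have h := IsCompact.nonempty_iInter_of_directed_nonempty_isCompact_isClosed
    (fun α : I => {z | α ≤ lev z})
    (by
      intro α β
      refine ⟨max α β, ?_, ?_⟩
      · intro z hz
        exact (le_max_left α β).trans hz
      · intro z hz
        exact (le_max_right α β).trans hz)
    (fun α => hcon α) (fun α => (hcl α).isCompact) hcl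
  obtain ⟨z, hz⟩ := h
  rw [mem_iInter] at hz
  obtain ⟨j, hj⟩ := exists_gt' hI (lev z)
  exact absurd (hz j) (not_le.2 hj)

/-- pieces are relatively open -/
theorem exists_open {lev : Z → I} {q : Z → Q} (hP : Pcs lev q) (z₀ : Z) :
    ∃ U, IsOpen U ∧ ∀ z, lev z₀ ≤ lev z → (z ∈ U ↔ q z = q z₀) := by
  choose U hU hzU hUq using hP.opn
  refine ⟨⋃ z, ⋃ (_ : q z = q z₀), U z, isOpen_iUnion fun z => isOpen_iUnion fun _ => hU z, ?_⟩
  intro z hz
  constructor
  · intro h
    obtain ⟨y, hy⟩ := mem_iUnion.1 h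
    obtain ⟨hy1, hy2⟩ := mem_iUnion.1 hy
    have h1 : lev y = lev z₀ := hP.lev_eq y z₀ hy1
    rw [hUq y z hy2 (h1.trans_le hz), hy1]
  · intro h
    exact mem_iUnion.2 ⟨z, mem_iUnion.2 ⟨h, hzU z⟩⟩

/-- only countably many pieces meet a second countable set -/
theorem countable_pieces [Uncountable I] (hI : ∀ i : I, (Iio i).Countable) [CompactSpace Z]
    {F : Set Z} {lev : Z → I} {q : Z → Q}
    (hF : SecondCountableTopology F) (hP : Pcs lev q) : (q '' F).Countable := by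
  obtain ⟨θ, hθ⟩ := exists_bound hI hP.closed
  have h1 : ∀ α : I, (q '' {z | z ∈ F ∧ lev z = α}).Countable := by
    intro α
    let D : Set Z := {z | z ∈ F ∧ α ≤ lev z}
    have hD : D ⊆ F := fun z hz => hz.1
    have hsc : SecondCountableTopology D :=
      (IsEmbedding.inclusion hD).isInducing.secondCountableTopology
    refine PairwiseDisjoint.countable_of_isOpen (α := D) (s := fun c : Q => {x : D | q x.1 = c})
      ?_ ?_ ?_
    · intro c _ c' _ hcc
      rw [Function.onFun, disjoint_left]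
      intro x hx hx'
      exact hcc (hx.symm.trans hx')
    · rintro c ⟨z₀, ⟨-, hz₀⟩, rfl⟩
      obtain ⟨U, hU, hUP⟩ := exists_open hP z₀
      have h1 : {x : D | q x.1 = q z₀} = Subtype.val ⁻¹' U := by
        ext x
        exact (hUP x.1 (hz₀.trans_le x.2.2)).symm
      rw [h1]
      exact hU.preimage continuous_subtype_val
    · rintro c ⟨z₀, ⟨hz, hz₀⟩, rfl⟩
      exact ⟨⟨z₀, hz, hz₀.ge⟩, rfl⟩
  refine ((hI θ).biUnion fun α _ => h1 α).mono ?_
  rintro c ⟨z, hz, rfl⟩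
  exact mem_biUnion (mem_Iio.2 (hθ z)) ⟨z, ⟨hz, rfl⟩, rfl⟩

/-- the traces of the clopen sets which are contained in the piece `P` -/
def Tr (lev : Z → I) (α : I) (P : Set Z) : Set (Set Z) :=
  {e | e ⊆ P ∧ ∃ c, IsClopen c ∧ e = c ∩ {z | α ≤ lev z}}

theorem countable_Tr [CompactSpace Z] {F : Set Z} {lev : Z → I} {q : Z → Q}
    (hF : SecondCountableTopology F) (hL : Pcs lev q) (z₀ : Z) (hj : {z | q z = q z₀} ⊆ F) :
    (Tr lev (lev z₀) {z | q z = q z₀}).Countable := by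
  set P : Set Z := {z | q z = q z₀} with hPdef
  have hsub : ∀ z ∈ P, lev z = lev z₀ := fun z hz => hL.lev_eq z z₀ hz
  have hsc : SecondCountableTopology P :=
    (IsEmbedding.inclusion hj).isInducing.secondCountableTopology
  let b : countableBasis P → Set P := fun s => s.1
  have hb : IsTopologicalBasis (range b) := by
    rw [Subtype.range_coe_subtype]
    exact isBasis_countableBasis P
  have hcount : Countable (countableBasis P) := (countable_countableBasis P).to_subtype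
  have key : ∀ e ∈ Tr lev (lev z₀) P, ∃ s : Set (countableBasis P), s.Finite ∧
      (Subtype.val ⁻¹' e : Set P) = ⋃ i ∈ s, b i := by
    rintro e ⟨heP, c, hc, hec⟩
    refine eq_finite_iUnion_of_isTopologicalBasis_of_isCompact_open b hb _ ?_ ?_
    · have h1 : IsCompact e := by
        rw [hec]
        exact (hc.isClosed.inter (hL.closed _)).isCompact
      rw [IsInducing.subtypeVal.isCompact_iff]
      rw [Subtype.image_preimage_coe, inter_eq_right.2 heP]
      exact h1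
    · have h1 : (Subtype.val ⁻¹' e : Set P) = Subtype.val ⁻¹' c := by
        ext x
        constructor
        · intro hx
          have hx' : x.1 ∈ e := hx
          rw [hec] at hx'
          exact hx'.1
        · intro hx
          show x.1 ∈ e
          rw [hec]
          exact ⟨hx, (hsub x.1 x.2).ge⟩
      rw [h1]
      exact hc.isOpen.preimage continuous_subtype_val
  have hfin : {s : Set (countableBasis P) | s.Finite}.Countable :=
    (countable_ofPred_finite_subset (countable_univ (α := countableBasis P))).mono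
      (fun (s : Set (countableBasis P)) (hs : s.Finite) =>
        (show s.Finite ∧ s ⊆ univ from ⟨hs, subset_univ s⟩))
  refine (hfin.image fun s => (Subtype.val '' (⋃ i ∈ s, b i) : Set Z)).mono ?_
  intro e he
  obtain ⟨s, hs, hes⟩ := key e he
  refine ⟨s, hs, ?_⟩
  show Subtype.val '' (⋃ i ∈ s, b i) = e
  rw [← hes, Subtype.image_preimage_coe, inter_eq_right.2 he.1]

/-- compact sets whose points are separated by the sets in `D j'`, `j' < j`, are separated -/
theorem sepSets {D : I → Set (Set Z)} (hD : Alg D) {j : I} (hj : (Iio j).Nonempty) {C C' : Set Z}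
    (hC : IsCompact C) (hC' : IsCompact C')
    (h : ∀ z ∈ C, ∀ z' ∈ C', ∃ j' < j, ∃ d ∈ D j', z ∈ d ∧ z' ∉ d) :
    ∃ j' < j, ∃ g ∈ D j', C ⊆ g ∧ ∀ z ∈ C', z ∉ g := by
  obtain ⟨k₀, hk₀⟩ := hj
  have h1 : ∀ z ∈ C, ∃ j' < j, ∃ d ∈ D j', z ∈ d ∧ ∀ y ∈ C', y ∉ d := by
    intro z hz
    refine hC'.induction_on (p := fun s => ∃ j' < j, ∃ d ∈ D j', z ∈ d ∧ ∀ y ∈ s, y ∉ d)
      ?_ ?_ ?_ ?_
    · exact ⟨k₀, hk₀, univ, hD.uni k₀, trivial, fun y hy => hy.elim⟩
    · rintro s t hst ⟨j', hj', d, hd, hzd, hdt⟩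
      exact ⟨j', hj', d, hd, hzd, fun y hy => hdt y (hst hy)⟩
    · rintro s t ⟨j₁, hj₁, d₁, hd₁, hz₁, h₁⟩ ⟨j₂, hj₂, d₂, hd₂, hz₂, h₂⟩
      refine ⟨max j₁ j₂, max_lt hj₁ hj₂, d₁ ∩ d₂, hD.inter _ _
        (hD.mono (le_max_left _ _) hd₁) _ (hD.mono (le_max_right _ _) hd₂), ⟨hz₁, hz₂⟩, ?_⟩
      rintro y (hy | hy) hyd
      · exact h₁ y hy hyd.1
      · exact h₂ y hy hyd.2
    · intro y hy
      obtain ⟨j', hj', d, hd, hzd, hyd⟩ := h z hz y hy
      refine ⟨dᶜ, mem_nhdsWithin_of_mem_nhds ((hD.clo j' d hd).isClosed.isOpen_compl.mem_nhds hyd),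
        j', hj', d, hd, hzd, fun x hx => hx⟩
  refine hC.induction_on (p := fun s => ∃ j' < j, ∃ g ∈ D j', s ⊆ g ∧ ∀ z ∈ C', z ∉ g)
    ?_ ?_ ?_ ?_
  · exact ⟨k₀, hk₀, ∅, hD.emp k₀, empty_subset _, fun z _ h => h⟩
  · rintro s t hst ⟨j', hj', g, hg, htg, hg'⟩
    exact ⟨j', hj', g, hg, hst.trans htg, hg'⟩
  · rintro s t ⟨j₁, hj₁, d₁, hd₁, hs₁, h₁⟩ ⟨j₂, hj₂, d₂, hd₂, hs₂, h₂⟩
    refine ⟨max j₁ j₂, max_lt hj₁ hj₂, d₁ ∪ d₂, hD.union _ _
      (hD.mono (le_max_left _ _) hd₁) _ (hD.mono (le_max_right _ _) hd₂),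
      union_subset_union hs₁ hs₂, ?_⟩
    rintro y hy (hyd | hyd)
    · exact h₁ y hy hyd
    · exact h₂ y hy hyd
  · intro z hz
    obtain ⟨j', hj', d, hd, hzd, hd'⟩ := h1 z hz
    exact ⟨d, mem_nhdsWithin_of_mem_nhds ((hD.clo j' d hd).isOpen.mem_nhds hzd),
      j', hj', d, hd, subset_rfl, hd'⟩

end GEVM

open GEVM in
open Classical in
theorem specGEV : SpecGEV.{u, v, w} := by
  intro I _ _ _ hI S Z _ _ _ _ Q F lev q D hFc hmono hF hP hD htyp
  obtain ⟨i₀⟩ : Nonempty I := inferInstance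
  let Bd : Z → Prop := fun z₀ => ∃ j, ∀ z, q z = q z₀ → z ∈ F j
  have hBd : ∀ z z', q z = q z' → Bd z → Bd z' := by
    rintro z z' h ⟨j, hj⟩
    exact ⟨j, fun y hy => hj y (hy.trans h.symm)⟩
  let cc : I → Set Z → Set Z := fun α e =>
    if h : ∃ c, IsClopen c ∧ e = c ∩ {z | α ≤ lev z} then h.choose else ∅
  have hcc : ∀ α e, (∃ c, IsClopen c ∧ e = c ∩ {z | α ≤ lev z}) →
      IsClopen (cc α e) ∧ e = cc α e ∩ {z | α ≤ lev z} := by
    intro α e h
    show IsClopen (if h : ∃ c, IsClopen c ∧ e = c ∩ {z | α ≤ lev z} then h.choose else ∅) ∧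
      e = (if h : ∃ c, IsClopen c ∧ e = c ∩ {z | α ≤ lev z} then h.choose else ∅) ∩
        {z | α ≤ lev z}
    rw [dif_pos h]
    exact h.choose_spec
  let B : I → Set (Set Z) := fun j => {c | ∃ z₀ ∈ F j, Bd z₀ ∧
    ∃ e ∈ Tr lev (lev z₀) {z | q z = q z₀}, c = cc (lev z₀) e}
  -- representatives of the pieces
  let rp : Q → Z → Z := fun c z₁ => if h : ∃ z, q z = c then h.choose else z₁
  have hrp : ∀ z z₁, q (rp (q z) z₁) = q z := by
    intro z z₁
    have h : ∃ z', q z' = q z := ⟨z, rfl⟩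
    show q (if h : ∃ z', q z' = q z then h.choose else z₁) = q z
    rw [dif_pos h]
    exact h.choose_spec
  have hSepq : ∀ z z' i, q z = q z' → SepD S F D lev q z i → SepD S F D lev q z' i := by
    intro z z' i h hs δ hδ hi y hy hyq y' hy' hl
    exact hs δ hδ hi y hy (hyq.trans h.symm) y' hy' ((hP.lev_eq z z' h).trans_le hl)
  let ii : Q → I := fun c =>
    if h : ∃ i, ∃ z, q z = c ∧ SepD S F D lev q z i then h.choose else i₀
  have hii : ∀ z, (∃ i, SepD S F D lev q z i) → SepD S F D lev q z (ii (q z)) := by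
    rintro z ⟨i, hi⟩
    have h : ∃ i, ∃ z', q z' = q z ∧ SepD S F D lev q z' i := ⟨i, z, rfl, hi⟩
    show SepD S F D lev q z
      (if h : ∃ i, ∃ z', q z' = q z ∧ SepD S F D lev q z' i then h.choose else i₀)
    rw [dif_pos h]
    obtain ⟨z', h1, h2⟩ := h.choose_spec
    exact hSepq z' z _ h1 h2
  have hι : ∀ j, ∃ b, ∀ c ∈ q '' F j, ii c < b := by
    intro j
    obtain ⟨b, hb⟩ := bound hI _ ((countable_pieces hI (hF j) hP).image ii)
    exact ⟨b, fun c hc => hb _ ⟨c, hc, rfl⟩⟩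
  choose ι hι using hι
  refine ⟨fun j => D j ∪ B j, ⟨?_, ?_, ?_, ?_⟩⟩
  · intro i j hij
    apply union_subset_union (hD.mono hij)
    rintro c ⟨z₀, hz₀, h⟩
    exact ⟨z₀, hmono hij hz₀, h⟩
  · intro j
    refine (hD.cnt j).union ?_
    have h1 : ∀ c : Q, {x : Set Z | ∃ z₀, q z₀ = c ∧ Bd z₀ ∧
        ∃ e ∈ Tr lev (lev z₀) {z | q z = q z₀}, x = cc (lev z₀) e}.Countable := by
      intro c
      by_cases h : ∃ z₀, q z₀ = c ∧ Bd z₀
      · obtain ⟨z₁, hz₁, i, hi⟩ := h
        refine ((countable_Tr (hF i) hP z₁ hi).image (cc (lev z₁))).mono ?_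
        rintro x ⟨z₀, hz₀, -, e, he, rfl⟩
        have h2 : q z₀ = q z₁ := hz₀.trans hz₁.symm
        rw [h2, hP.lev_eq _ _ h2] at he
        rw [hP.lev_eq _ _ h2]
        exact ⟨e, he, rfl⟩
      · refine countable_empty.mono ?_
        rintro x ⟨z₀, hz₀, hb, -⟩
        exact (h ⟨z₀, hz₀, hb⟩).elim
    refine ((countable_pieces hI (hF j) hP).biUnion fun c _ => h1 c).mono ?_
    rintro x ⟨z₀, hz₀, hb, e, he, rfl⟩
    exact mem_biUnion (mem_image_of_mem q hz₀) ⟨z₀, rfl, hb, e, he, rfl⟩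
  · rintro j c (hc | ⟨z₀, -, -, e, he, rfl⟩)
    · exact hD.clo j c hc
    · exact (hcc _ e he.2).1
  · refine ((LgS.closed ι).inter LgS.nonmin).mono ?_
    rintro j ⟨⟨hjS, hjι⟩, hj0⟩ z₀ ⟨k, hk, z₁, hz₁, hq⟩ C hC hCq hC'
    have hTF : TT F j ⊆ F j := by
      refine closure_minimal ?_ (hFc j)
      exact iUnion_subset fun i => iUnion_subset fun hi => hmono hi.le
    have hlev1 : lev z₁ = lev z₀ := hP.lev_eq _ _ hq
    by_cases hb : Bd z₀
    · obtain ⟨U, hU, hUP⟩ := exists_open hP z₀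
      obtain ⟨c₀, hc₀, hCc, hcb⟩ := exists_clopen_of_closed_subset_open hC
        ((hC'.union ((hP.closed (lev z₀)).inter hU.isClosed_compl)).isOpen_compl) (by
          intro z hz
          rintro (h | ⟨h, h'⟩)
          · exact h.2.2 hz
          · exact h' ((hUP z h).2 (hCq z hz).2))
      have heP : c₀ ∩ {z | lev z₀ ≤ lev z} ⊆ {z | q z = q z₀} := by
        rintro z ⟨hz, hz'⟩
        refine (hUP z hz').1 ?_
        by_contra hcon
        exact hcb hz (Or.inr ⟨hz', hcon⟩)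
      have he : c₀ ∩ {z | lev z₀ ≤ lev z} ∈ Tr lev (lev z₀) {z | q z = q z₀} :=
        ⟨heP, c₀, hc₀, rfl⟩
      obtain ⟨h1, h2⟩ := hcc (lev z₀) _ he.2
      refine ⟨k, hk, cc (lev z₀) (c₀ ∩ {z | lev z₀ ≤ lev z}), Or.inr ?_, ?_⟩
      · refine ⟨z₁, hz₁, hBd z₀ z₁ hq.symm hb, c₀ ∩ {z | lev z₀ ≤ lev z}, ?_, ?_⟩
        · rw [hlev1, hq]
          exact he
        · rw [hlev1]
      · intro z hz hzl
        constructor
        · intro hzg
          have h3 : z ∈ c₀ ∩ {z | lev z₀ ≤ lev z} := by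
            rw [h2]
            exact ⟨hzg, hzl⟩
          by_contra hcon
          exact hcb h3.1 (Or.inl ⟨hz, hzl, hcon⟩)
        · intro hzC
          have h3 : z ∈ c₀ ∩ {z | lev z₀ ≤ lev z} := ⟨hCc hzC, hzl⟩
          rw [h2] at h3
          exact h3.1
    · have hs := hii z₀ ((htyp z₀).resolve_left hb)
      have hij : ii (q z₀) < j := by
        have h1 : ii (q z₀) < ι k := hι k (q z₀) ⟨z₁, hz₁, hq⟩
        exact h1.trans (hjι k hk)
      obtain ⟨j', hj', g, hg, hCg, hg'⟩ := sepSets hD hj0 hC.isCompact hC'.isCompact (by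
        rintro z hz z' ⟨hz', hzl', hzC'⟩
        exact hs j hjS hij z (hTF (hCq z hz).1) (hCq z hz).2 z' (hTF hz') hzl'
          (fun h => hzC' (h ▸ hz)))
      refine ⟨j', hj', g, Or.inl hg, fun z hz hzl => ⟨fun hzg => ?_, fun hzC => hCg hzC⟩⟩
      by_contra hcon
      exact hg' z ⟨hz, hzl, hcon⟩ hzg

end MPd1327c.ZV
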