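import Pool.Agent.Lib.MP_d1327c_gt.ZV.Spec
import Pool.Agent.Lib.MP_d1327c_gt.ZH.PCS

/-!
# Module PCV: the metrizable pieces refined
-/

set_option autoImplicit false

open Set Topology TopologicalSpace

namespace MPd1327c.ZV

open MPd1327c.ZH

universe u v w

namespace PCVM

variable {I : Type v} [LinearOrder I] {K : Type w} [TopologicalSpace K] {Q : Type w}

/-- the refinement of one piece -/
theorem piece [Uncountable I] (hI : ∀ i : I, (Iio i).Countable) [CompactSpace K] [T2Space K]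
    {F : I → Set K} {lev : K → I} {q : K → Q} (hFc : ∀ i, IsClosed (F i)) (hFm : Monotone F)
    (hFx : ∀ x, ∃ i, x ∈ F i) (hP : Pcs lev q) (c : Q) :
    ∃ s : K → Set K, ∀ y, q y = c → y ∈ s y ∧ (∀ z ∈ s y, q z = c) ∧ (∀ z ∈ s y, s z = s y) ∧
      (∃ U, IsOpen U ∧ y ∈ U ∧ ∀ z ∈ U, lev y ≤ lev z → z ∈ s y) ∧
      (MetrizableSpace {y // q y = c} → ∃ j, s y ⊆ F j) := by
  classical
  by_cases hm : MetrizableSpace {y // q y = c}
  swap
  · refine ⟨fun _ => {z | q z = c}, fun y hy => ⟨hy, fun z hz => hz, fun z _ => rfl, ?_,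
      fun h => absurd h hm⟩⟩
    obtain ⟨U, hU, hyU, h⟩ := hP.opn y
    exact ⟨U, hU, hyU, fun z hz hl => (h z hz hl).trans hy⟩
  by_cases hne : ∃ z₀, q z₀ = c
  swap
  · exact ⟨fun _ => ∅, fun y hy => absurd ⟨y, hy⟩ hne⟩
  obtain ⟨z₀, hz₀⟩ := hne
  have hlev : ∀ z, q z = c → lev z = lev z₀ := fun z hz => hP.lev_eq z z₀ (hz.trans hz₀.symm)
  choose V hV1 hV2 hV3 using hP.opn
  have hDeq : {y : K | q y = c} = {y | lev z₀ ≤ lev y} ∩ ⋃ z, ⋃ (_ : q z = c), V z := by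
    ext y
    simp only [mem_inter_iff, Set.mem_ofPred_eq, mem_iUnion]
    constructor
    · intro hy
      exact ⟨(hlev y hy).ge, y, hy, hV2 y⟩
    · rintro ⟨h1, z, hz, h2⟩
      exact (hV3 z y h2 (by rw [hlev z hz]; exact h1)).trans hz
  have hlc : IsLocallyClosed {y : K | q y = c} := by
    rw [hDeq]
    exact (hP.closed _).isLocallyClosed.inter
      (isOpen_iUnion fun z => isOpen_iUnion fun _ => hV1 z).isLocallyClosed
  have : LocallyCompactSpace {y // q y = c} := hlc.locallyCompactSpace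
  obtain ⟨r, hr1, hr2, hr3, hr4⟩ := PCSM.decomp (D := {y // q y = c})
  choose k hk using hr2
  refine ⟨fun y => if h : q y = c then Subtype.val '' r (k ⟨y, h⟩) else ∅, fun y hy => ?_⟩
  simp only [hy, dif_pos]
  refine ⟨⟨⟨y, hy⟩, hk _, rfl⟩, ?_, ?_, ?_, fun _ => ?_⟩
  · rintro _ ⟨⟨z, hz⟩, _, rfl⟩
    exact hz
  · rintro _ ⟨⟨z, hz⟩, hz', rfl⟩
    simp only [hz, dif_pos]
    rw [hr3 (k ⟨z, hz⟩) (k ⟨y, hy⟩) ⟨z, hz⟩ (hk _) hz']
  · obtain ⟨U, hU, hUq⟩ := isOpen_induced_iff.1 (hr1 (k ⟨y, hy⟩))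
    refine ⟨U ∩ V y, hU.inter (hV1 y), ⟨?_, hV2 y⟩, ?_⟩
    · have : (⟨y, hy⟩ : {y // q y = c}) ∈ Subtype.val ⁻¹' U := by rw [hUq]; exact hk _
      exact this
    · rintro z ⟨h1, h2⟩ hl
      have hz : q z = c := (hV3 y z h2 hl).trans hy
      refine ⟨⟨z, hz⟩, ?_, rfl⟩
      rw [← hUq]
      exact h1
  · obtain ⟨c₀, hc₀, hqc⟩ := hr4 (k ⟨y, hy⟩)
    choose g hg using hFx
    obtain ⟨b, hb⟩ := bound hI ((fun x : {y // q y = c} => g x) '' c₀) (hc₀.image _)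
    refine ⟨b, ?_⟩
    rintro _ ⟨z, hz, rfl⟩
    have hcl : IsClosed (Subtype.val ⁻¹' F b : Set {y // q y = c}) :=
      (hFc b).preimage continuous_subtype_val
    have hsub : c₀ ⊆ (Subtype.val ⁻¹' F b : Set {y // q y = c}) := fun x hx =>
      hFm (hb _ ⟨x, hx, rfl⟩).le (hg x)
    exact closure_minimal hsub hcl (hqc hz)

end PCVM

open PCVM in
theorem specPCV : SpecPCV.{v, w} := by
  intro I _ _ _ hI K _ _ _ Q F lev q hFc hFm hFx hP
  choose s hs using fun c => piece hI hFc hFm hFx hP c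
  have h1 : ∀ y, y ∈ s (q y) y := fun y => (hs (q y) y rfl).1
  have h2 : ∀ y, ∀ z ∈ s (q y) y, q z = q y := fun y => (hs (q y) y rfl).2.1
  have h3 : ∀ y, ∀ z ∈ s (q y) y, s (q z) z = s (q y) y := fun y z hz => by
    rw [h2 y z hz]
    exact (hs (q y) y rfl).2.2.1 z hz
  refine ⟨fun y => s (q y) y, ⟨hP.closed, fun z z' h => ?_, fun z => ?_⟩, fun x y h => ?_,
    fun x hx => ?_⟩
  · have : z ∈ s (q z') z' := by rw [← h]; exact h1 z
    exact hP.lev_eq _ _ (h2 z' z this)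
  · obtain ⟨U, hU, hzU, h⟩ := (hs (q z) z rfl).2.2.2.1
    exact ⟨U, hU, hzU, fun z' hz' hl => h3 z z' (h z' hz' hl)⟩
  · have : x ∈ s (q y) y := by
      rw [← show s (q x) x = s (q y) y from h]
      exact h1 x
    exact h2 y x this
  · obtain ⟨j, hj⟩ := (hs (q x) x rfl).2.2.2.2 hx
    refine ⟨j, fun y hy => hj ?_⟩
    rw [← show s (q y) y = s (q x) x from hy]
    exact h1 y

end MPd1327c.ZV
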