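import Pool.Agent.Lib.MP_d1327c_gt.ZV.Spec
import Pool.Agent.Lib.MP_d1327c_gt.ZH.SLC

/-!
# MP_d1327c_gt, module SLV: the correction along the levels
-/

set_option autoImplicit false

open Set Topology TopologicalSpace

namespace MPd1327c.ZV

open MPd1327c.ZH

universe u v w

namespace SLVM

open MPd1327c.ZH.SLCM (MM MM_empty MM_add MM_mono MM_cnt MM_clo clopen_symmDiff mem_symmDiff'
  TT_mono TT_sub LL LL_eq LL_sub LL_anti)

section

variable {I : Type v} [LinearOrder I] [WellFoundedLT I] {S : Set I}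

theorem LL_large [Uncountable I] (hI : ∀ i : I, (Iio i).Countable) (hS : Stat S) {Δ : Set I}
    (hΔ : LgS S Δ) (β : I) : LgS S (LL Δ β) := by
  induction β using WellFoundedLT.induction with
  | ind β ih =>
    have h1 : LgS S {δ : I | ∀ γ ∈ Iio β, δ ∈ {δ | ∀ i < δ, ∃ j ∈ LL Δ γ, i < j ∧ j < δ}} :=
      LgS.biInter hI (hI β) fun γ hγ => LgS.lim hS (ih γ hγ)
    refine (hΔ.inter h1).mono ?_
    intro i hi
    rw [LL_eq]
    exact ⟨hi.1, fun γ hγ => hi.2 γ hγ⟩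

end

section

variable {I : Type v} [LinearOrder I]
  {Z : Type w} [TopologicalSpace Z] {Q : Type u} {F : I → Set Z} {lev : Z → I}
  {q : Z → Q} {G : I → Set (Set Z)}

/-- the levels are bounded -/
theorem theta [WellFoundedLT I] [Uncountable I] [CompactSpace Z] (hI : ∀ i : I, (Iio i).Countable)
    (hcl : ∀ α, IsClosed {z | α ≤ lev z}) : ∃ θ, ∀ z, lev z < θ := by
  by_contra hcon
  push Not at hcon
  have hne : Nonempty I := inferInstance
  obtain ⟨z, hz⟩ := IsCompact.nonempty_iInter_of_directed_nonempty_isCompact_isClosed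
    (fun α : I => {z | α ≤ lev z})
    (fun α β => ⟨max α β, fun z hz => (le_max_left α β).trans hz,
      fun z hz => (le_max_right α β).trans hz⟩)
    hcon (fun α => (hcl α).isCompact) hcl
  obtain ⟨j, hj⟩ := exists_gt' hI (lev z)
  rw [mem_iInter] at hz
  exact absurd (hz j) (not_le.2 hj)

/-- the condition of `GenS.fit` at `j` -/
def Fit (F : I → Set Z) (lev : Z → I) (q : Z → Q) (G : I → Set (Set Z)) (j : I) : Prop :=
  ∀ z₀, (∃ k < j, ∃ z ∈ F k, q z = q z₀) → ∀ C : Set Z, IsClosed C →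
    (∀ z ∈ C, z ∈ TT F j ∧ q z = q z₀) → IsClosed {z | z ∈ TT F j ∧ lev z₀ ≤ lev z ∧ z ∉ C} →
    ∃ j' < j, ∃ g ∈ G j', ∀ z ∈ TT F j, lev z₀ ≤ lev z → (z ∈ g ↔ z ∈ C)

theorem prop1 {a c e f : Prop} (h : ¬ (e ∧ f)) :
    (¬ ((a ∧ e) ↔ ¬ (c ↔ (a ∧ f)))) ↔ ¬ (c ↔ (a ∧ (e ∨ f))) := by
  by_cases ha : a <;> by_cases hc : c <;> by_cases he : e <;> by_cases hf : f <;> simp_all

theorem prop2 {a c f : Prop} (e : Prop) (h : ¬ e) : (¬ (c ↔ (a ∧ f))) ↔ ¬ (c ↔ (a ∧ (e ∨ f))) := by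
  by_cases ha : a <;> by_cases hc : c <;> by_cases hf : f <;> simp_all

theorem prop3 {b c d r : Prop} (h : d → ¬ (b ↔ c)) (hr : d → r) (h' : ¬ d → (b ↔ c)) :
    b ↔ ¬ (c ↔ (d ∧ r)) := by
  by_cases ha : d
  · have h1 := h ha
    have h2 := hr ha
    by_cases hb : b <;> by_cases hc : c <;> simp_all
  · have h1 := h' ha
    by_cases hb : b <;> by_cases hc : c <;> simp_all

/-- one piece -/
theorem piece (hL : Pcs lev q) {β j : I} {D : Set Z} (hD : IsClopen D) (hfit : Fit F lev q G j)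
    {z₀ : Z} (hz₀ : lev z₀ = β) (hlev : ∀ z ∈ TT F j, β ≤ lev z → z ∈ D → lev z = β)
    (hmeet : ∃ k < j, ∃ z ∈ F k, q z = q z₀) :
    ∃ j' < j, ∃ g ∈ G j', ∀ z ∈ TT F j, β ≤ lev z → (z ∈ g ↔ z ∈ D ∧ q z = q z₀) := by
  choose U hUo hUm hU using hL.opn
  have hTc : IsClosed (TT F j) := isClosed_closure
  obtain ⟨j', hj', g, hg, h⟩ := hfit z₀ hmeet {z | z ∈ TT F j ∧ β ≤ lev z ∧ z ∈ D ∧ q z = q z₀}
    (by
      have e : {z | z ∈ TT F j ∧ β ≤ lev z ∧ z ∈ D ∧ q z = q z₀} =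
          (TT F j ∩ ({z | β ≤ lev z} ∩ D)) ∩ (⋃ z' : {z' // lev z' = β ∧ q z' ≠ q z₀}, U z')ᶜ := by
        ext z
        constructor
        · rintro ⟨h1, h2, h3, h4⟩
          refine ⟨⟨h1, h2, h3⟩, ?_⟩
          intro hcon
          obtain ⟨⟨z', hz', hq⟩, hzU⟩ := mem_iUnion.1 hcon
          apply hq
          rw [← hU z' z hzU (hz'.le.trans h2), h4]
        · rintro ⟨⟨h1, h2, h3⟩, h4⟩
          refine ⟨h1, h2, h3, ?_⟩
          by_contra hcon
          apply h4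
          exact mem_iUnion.2 ⟨⟨z, hlev z h1 h2 h3, hcon⟩, hUm z⟩
      rw [e]
      refine (hTc.inter ((hL.closed β).inter hD.isClosed)).inter (IsOpen.isClosed_compl ?_)
      exact isOpen_iUnion fun z' => hUo z')
    (fun z hz => ⟨hz.1, hz.2.2.2⟩)
    (by
      have e : {z | z ∈ TT F j ∧ lev z₀ ≤ lev z ∧
            z ∉ {z | z ∈ TT F j ∧ β ≤ lev z ∧ z ∈ D ∧ q z = q z₀}} =
          TT F j ∩ ({z | β ≤ lev z} ∩
            ((⋃ z' : {z' // lev z' = β ∧ q z' = q z₀}, U z') ∩ D)ᶜ) := by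
        ext z
        constructor
        · rintro ⟨h1, h2, h3⟩
          rw [hz₀] at h2
          refine ⟨h1, h2, ?_⟩
          rintro ⟨h4, h5⟩
          obtain ⟨⟨z', hz', hq⟩, hzU⟩ := mem_iUnion.1 h4
          refine h3 ⟨h1, h2, h5, ?_⟩
          rw [hU z' z hzU (hz'.le.trans h2), hq]
        · rintro ⟨h1, h2, h3⟩
          refine ⟨h1, hz₀.le.trans h2, ?_⟩
          rintro ⟨_, _, h5, h6⟩
          exact h3 ⟨mem_iUnion.2 ⟨⟨z, (hL.lev_eq z z₀ h6).trans hz₀, h6⟩, hUm z⟩, h5⟩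
      rw [e]
      refine hTc.inter ((hL.closed β).inter (IsOpen.isClosed_compl ?_))
      exact (isOpen_iUnion (f := fun z' : {z' // lev z' = β ∧ q z' = q z₀} => U z')
        fun z' => hUo z').inter hD.isOpen)
  refine ⟨j', hj', g, hg, fun z hz hzl => ?_⟩
  rw [h z hz (hz₀.le.trans hzl)]
  exact ⟨fun h' => h'.2.2, fun h' => ⟨hz, hzl, h'⟩⟩

/-- the correction on finitely many pieces -/
theorem corr (hL : Pcs lev q) (hGm : Monotone G) {β j i₀ : I} {b c D : Set Z} (hi₀ : i₀ < j)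
    (hc : c ∈ MM G i₀) (hD : IsClopen D) (hfit : Fit F lev q G j)
    (hlev : ∀ z ∈ TT F j, β ≤ lev z → z ∈ D → lev z = β) (R : Finset Q) :
    (∀ p ∈ R, ∃ z₀, lev z₀ = β ∧ q z₀ = p) →
    (∀ p ∈ R, (∃ k < j, ∃ z ∈ F k, q z = p) ∨ ∀ z ∈ TT F j, q z ≠ p) →
    ∃ j' < j, ∃ c' ∈ MM G j', ∀ z ∈ TT F j, β ≤ lev z →
      (z ∈ c' ↔ ¬ (z ∈ c ↔ (z ∈ D ∧ q z ∈ R))) := by
  classical
  induction R using Finset.induction_on with
  | empty =>
    intro _ _
    refine ⟨i₀, hi₀, c, hc, fun z _ _ => ?_⟩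
    have : ¬ (z ∈ D ∧ q z ∈ (∅ : Finset Q)) := fun h => Finset.notMem_empty _ h.2
    simp only [this, iff_false, not_not]
  | insert p R hpR ih =>
    intro hR hmeet
    obtain ⟨j', hj', c', hc', h⟩ := ih (fun p' hp' => hR p' (Finset.mem_insert_of_mem hp'))
      fun p' hp' => hmeet p' (Finset.mem_insert_of_mem hp')
    obtain ⟨z₀, hz₀, hq⟩ := hR p (Finset.mem_insert_self _ _)
    rcases hmeet p (Finset.mem_insert_self _ _) with hm | hm
    · rw [← hq] at hm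
      obtain ⟨k, hk, g, hg, hgz⟩ := piece hL hD hfit hz₀ hlev hm
      refine ⟨max j' k, max_lt hj' hk, symmDiff g c',
        MM_add (hGm (le_max_right _ _) hg) (MM_mono hGm (le_max_left _ _) hc'), ?_⟩
      intro z hz hzl
      have h1 := h z hz hzl
      have h2 := hgz z hz hzl
      rw [hq] at h2
      rw [mem_symmDiff', h1, h2, Finset.mem_insert]
      exact prop1 fun h3 => hpR (h3.1 ▸ h3.2)
    · refine ⟨j', hj', c', hc', fun z hz hzl => ?_⟩
      have h1 := h z hz hzl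
      rw [h1, Finset.mem_insert]
      exact prop2 _ (hm z hz)

omit [TopologicalSpace Z] in
/-- a common bound for the pieces which meet some `F k`, `k < i` -/
theorem common (hm : Monotone F) {i i₀ : I} (hi₀ : i₀ < i) (R : Finset Q) :
    ∃ i₁, i₀ ≤ i₁ ∧ i₁ < i ∧ ∀ p ∈ R, (∃ k < i, ∃ z ∈ F k, q z = p) → ∃ z ∈ F i₁, q z = p := by
  classical
  induction R using Finset.induction_on with
  | empty => exact ⟨i₀, le_rfl, hi₀, fun p hp => absurd hp (Finset.notMem_empty p)⟩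
  | insert p R _ ih =>
    obtain ⟨i₁, h01, h1i, h⟩ := ih
    by_cases hmeet : ∃ k < i, ∃ z ∈ F k, q z = p
    · obtain ⟨k, hk, z, hz, hzp⟩ := hmeet
      refine ⟨max i₁ k, h01.trans (le_max_left _ _), max_lt h1i hk, fun p' hp' hp'm => ?_⟩
      rcases Finset.mem_insert.1 hp' with rfl | hp'R
      · exact ⟨z, hm (le_max_right _ _) hz, hzp⟩
      · obtain ⟨z', hz', hz'p⟩ := h p' hp'R hp'm
        exact ⟨z', hm (le_max_left _ _) hz', hz'p⟩
    · refine ⟨i₁, h01, h1i, fun p' hp' hp'm => ?_⟩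
      rcases Finset.mem_insert.1 hp' with rfl | hp'R
      · exact absurd hp'm hmeet
      · exact h p' hp'R hp'm

/-- the claim -/
theorem claim [WellFoundedLT I] [CompactSpace Z] (hF : ∀ i, IsClosed (F i)) (hm : Monotone F)
    (hL : Pcs lev q) (hGm : Monotone G) (hGc : ∀ i, ∀ c ∈ G i, IsClopen c) (Δ : Set I)
    (hΔ : ∀ j ∈ Δ, Fit F lev q G j) (β : I) :
    ∀ i ∈ LL Δ β, ∀ i₀ < i, ∀ c ∈ MM G i₀, ∀ b : Set Z, IsClopen b →
      (∀ z ∈ TT F i, β ≤ lev z → (z ∈ b ↔ z ∈ c)) →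
      ∃ j ∈ Δ, j ≤ i ∧ ∃ j' < j, ∃ c' ∈ MM G j', ∀ z ∈ TT F j, (z ∈ b ↔ z ∈ c') := by
  classical
  induction β using WellFoundedLT.induction with
  | ind β ih =>
    intro i hi i₀ hi₀ c hc b hb hagr
    by_cases ha : ∃ γ < β, ∀ z ∈ TT F i, γ ≤ lev z → (z ∈ b ↔ z ∈ c)
    · obtain ⟨γ, hγ, h⟩ := ha
      exact ih γ hγ i (LL_anti Δ hγ.le hi) i₀ hi₀ c hc b hb h
    push Not at ha
    have hclob : IsClopen (symmDiff b c) := clopen_symmDiff hb (MM_clo hGc i₀ c hc)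
    have ha' : ∀ γ < β, ({z | γ ≤ lev z} ∩ (TT F i ∩ symmDiff b c)).Nonempty := by
      intro γ hγ
      obtain ⟨z, hz1, hz2, hz3⟩ := ha γ hγ
      refine ⟨z, hz2, hz1, ?_⟩
      rw [mem_symmDiff']
      tauto
    rcases (Iio β).eq_empty_or_nonempty with h0 | hne
    · refine ⟨i, LL_sub Δ β hi, le_rfl, i₀, hi₀, c, hc, fun z hz => hagr z hz ?_⟩
      by_contra hcon
      have : lev z ∈ Iio β := not_le.1 hcon
      rw [h0] at this
      exact this
    · have hne' : Nonempty (Iio β) := hne.to_subtype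
      have hTc : IsClosed (TT F i) := isClosed_closure
      obtain ⟨x, hx⟩ := IsCompact.nonempty_iInter_of_directed_nonempty_isCompact_isClosed
        (fun γ : Iio β => {z | (γ : I) ≤ lev z} ∩ (TT F i ∩ symmDiff b c))
        (fun γ γ' => ⟨⟨max (γ : I) γ', max_lt γ.2 γ'.2⟩,
          fun z hz => ⟨(le_max_left (γ : I) γ').trans hz.1, hz.2⟩,
          fun z hz => ⟨(le_max_right (γ : I) γ').trans hz.1, hz.2⟩⟩)
        (fun γ => ha' γ γ.2)
        (fun γ => ((hL.closed γ).inter (hTc.inter hclob.isClosed)).isCompact)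
        (fun γ => (hL.closed γ).inter (hTc.inter hclob.isClosed))
      rw [mem_iInter] at hx
      obtain ⟨γ₀, hγ₀⟩ := hne
      have hxT : x ∈ TT F i := (hx ⟨γ₀, hγ₀⟩).2.1
      have hxs : x ∈ symmDiff b c := (hx ⟨γ₀, hγ₀⟩).2.2
      have hxl : ∀ γ < β, γ ≤ lev x := fun γ hγ => (hx ⟨γ, hγ⟩).1
      have hlx : lev x < β := by
        by_contra hcon
        rw [mem_symmDiff'] at hxs
        exact hxs (hagr x hxT (not_lt.1 hcon))
      obtain ⟨β', hβ'⟩ : ∃ β', β' = lev x := ⟨_, rfl⟩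
      rw [← hβ'] at hxl hlx
      set C : Set Z := {z | z ∈ TT F i ∧ β' ≤ lev z ∧ z ∈ symmDiff b c} with hC
      have hClo : IsClosed C := by
        have e : C = TT F i ∩ ({z | β' ≤ lev z} ∩ symmDiff b c) := by
          ext z
          rfl
        rw [e]
        exact hTc.inter ((hL.closed β').inter hclob.isClosed)
      have hClev : ∀ z ∈ C, lev z = β' := by
        rintro z ⟨hz1, hz2, hz3⟩
        refine le_antisymm ?_ hz2
        apply hxl
        by_contra hcon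
        rw [mem_symmDiff'] at hz3
        exact hz3 (hagr z hz1 (not_lt.1 hcon))
      choose U hUo hUm hU using hL.opn
      obtain ⟨t, ht1, ht2⟩ := hClo.isCompact.elim_nhds_subcover U
        (fun z _ => (hUo z).mem_nhds (hUm z))
      obtain ⟨i₁, h01, h1i, hcom⟩ := common (q := q) hm hi₀ (t.image q)
      have hi2 := hi
      rw [LL_eq] at hi2
      obtain ⟨j, hj, h1j, hji⟩ := hi2.2 β' hlx i₁ h1i
      have hjΔ : j ∈ Δ := LL_sub Δ β' hj
      have hTji : TT F j ⊆ TT F i := TT_mono F hji.le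
      obtain ⟨j', hj', c', hc', h⟩ := corr (b := b) hL hGm (h01.trans_lt h1j) hc hclob (hΔ j hjΔ)
        (fun z hz hzl hzD => hClev z ⟨hTji hz, hzl, hzD⟩) (t.image q)
        (by
          intro p hp
          obtain ⟨z₀, hz₀, rfl⟩ := Finset.mem_image.1 hp
          exact ⟨z₀, hClev z₀ (ht1 z₀ hz₀), rfl⟩)
        (by
          intro p hp
          by_cases hmeet : ∃ k < i, ∃ z ∈ F k, q z = p
          · obtain ⟨z, hz, hzp⟩ := hcom p hp hmeet
            exact Or.inl ⟨i₁, h1j, z, hz, hzp⟩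
          · refine Or.inr fun z hz hzp => hmeet ⟨j, hji, z, TT_sub hF hm j hz, hzp⟩)
      obtain ⟨k, hk, hkj, rest⟩ := ih β' hlx j hj j' hj' c' hc' b hb (by
        intro z hz hzl
        rw [h z hz hzl]
        refine prop3 (fun hzD => mem_symmDiff'.1 hzD) (fun hzD => ?_) fun hzD => ?_
        · have hzC : z ∈ C := ⟨hTji hz, hzl, hzD⟩
          obtain ⟨z₀, hz₀, hzU⟩ := mem_iUnion₂.1 (ht2 hzC)
          have hle : lev z₀ ≤ lev z := (hClev z₀ (ht1 z₀ hz₀)).le.trans hzl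
          rw [hU z₀ z hzU hle]
          exact Finset.mem_image_of_mem q hz₀
        · by_contra hcon
          exact hzD (mem_symmDiff'.2 hcon))
      exact ⟨k, hk, hkj.trans hji.le, rest⟩

end

end SLVM

open SLVM MPd1327c.ZH.SLCM in
theorem specSLV : SpecSLV.{u, v, w} := by
  intro I _ _ _ hI S hS Z _ _ Q F lev q G hF hm hL hG
  refine ⟨MM G, MM_mono hG.mono, MM_cnt hG.cnt, MM_clo hG.clo, ?_⟩
  intro Δ hΔ
  obtain ⟨θ, hθ⟩ := theta hI hL.closed
  have hΔ₀ : LgS S (Δ ∩ {j | Fit F lev q G j}) := hΔ.inter hG.fit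
  refine ((SLVM.LL_large hI hS hΔ₀ θ).inter LgS.nonmin).mono ?_
  rintro i ⟨hi, i₀, hi₀⟩ b hb
  obtain ⟨j, hj, hji, rest⟩ := SLVM.claim hF hm hL hG.mono hG.clo _ (fun j hj => hj.2) θ i hi i₀ hi₀ ∅
    (MM_empty G i₀) b hb fun z _ hz => absurd (hθ z) (not_lt.2 hz)
  exact ⟨j, hj.1, hji, rest⟩

end MPd1327c.ZV
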