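import Pool.Agent.Lib.MP_d1327c_gt.ZV.Defs

/-!
# MP_d1327c_gt, the general theorem: the modules, with their proofs

**Theorem** (`SpecASV`). Let `S ⊆ ω₁` be stationary. Let `K a`, `a ∈ A`, be compact Hausdorff spaces
with points `o a`, each the union of closed metrizable sets `F a i`, `i < ω₁`, increasing in `i` and
containing `o a`, and let `f a i`, `i < ω₁`, be continuous real functions on `K a`. Let every `K a`
be partitioned into pieces, with a level in `ω₁` for every piece, such that the union of the pieces
of level `≥ α` is closed and every piece is relatively open in the union of the pieces of at least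
its level. Suppose that every piece `P` is metrizable, or there is `i < ω₁` such that for all `δ ∈ S`
above `i` the functions `f a j`, `j < δ`, distinguish every point of `P ∩ F a δ` from all other
points of `F a δ` of at least the level of `P`. Then every closed subspace `X` of the product of the
`K a`, all of whose points differ from `o` in countably many coordinates only, is a continuous image
of a compact zero-dimensional `Y` with `C_p (Y)` Lindelöf.

(One piece: `StationarySigmaProducts`. All pieces metrizable: `SpecASM` of `ZH/Spec.lean`.)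

The modules are variants of those of `ZH`: the Lean of `ZH/{PCS,ZDP,GEN,SLC,CHA,SLW,TRE,ASM}.lean` is
the best starting point.
-/

set_option autoImplicit false

open Set Topology TopologicalSpace

namespace MPd1327c.ZV

open MPd1327c.ZH

universe u v w

/-- **PCV** (150 lines, deps: none; variant of `ZH/PCS.lean`). The metrizable pieces are refined into
pieces which are contained in some `F j`.

Proof. Let `c ∈ Q` be such that `P = {y | q y = c}` is nonempty and metrizable, `α` its level. By
`Pcs.opn` there is an open `U` with `U ∩ {α ≤ lev} = P`, so `P` is open in the compact set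
`{α ≤ lev}`, hence locally compact; it is metrizable, so paracompact. As in `ZH/PCS.lean` (2) - (5),
`P` is the disjoint union of relatively open sets, each contained in some `F j` (a locally finite
cover of `P` by open sets with compact closure; classes of indices under the relation generated by
meeting; a class is countable; closures of its members are compact metrizable, so separable, so
contained in some `F j`). Let `q' y`, for `y ∈ P`, be the member which contains `y`. For the `y` whose
piece is not metrizable let `q' y = {z | q z = q y}`. Always `y ∈ q' y ⊆ {z | q z = q y}`, and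
`q' x = q' y` iff `y ∈ q' x`. `Pcs lev q'`: `lev_eq` since `q' x = q' y` gives `q x = q y`; `opn`: `q' z`
is relatively open in `{y | q y = q z}`, which is relatively open in `{lev z ≤ lev}`. -/
def SpecPCV : Prop :=
  ∀ (I : Type v) [LinearOrder I] [WellFoundedLT I] [Uncountable I], (∀ i : I, (Iio i).Countable) →
  ∀ (K : Type w) [TopologicalSpace K] [CompactSpace K] [T2Space K] (Q : Type w) (F : I → Set K)
    (lev : K → I) (q : K → Q), (∀ i, IsClosed (F i)) → Monotone F → (∀ x, ∃ i, x ∈ F i) →
    Pcs lev q → ∃ q' : K → Set K, Pcs lev q' ∧ (∀ x y, q' x = q' y → q x = q y) ∧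
      ∀ x, MetrizableSpace {y // q y = q x} → ∃ j, ∀ y, q' y = q' x → y ∈ F j

/-- **ZDV** (300 lines, deps: none; variant of `ZH/ZDP.lean`). The zero-dimensional preimage.

Proof. In the copy of `CST.lean` (functions with values in `ℕ → ℝ`) replace `F : I → Set X` and `S`
by a family of closed sets `C : I → ℕ → Set X`: `Good.miss` says that for all `β ≤ γ` and all `k` the
cuts of stage `γ` do not meet the points over `C β k`; the hypothesis of `exists_data` is that for
all `β, k` the `f' ξ`, `ξ < β`, separate the points of `C β k`; `uniq` is for two points over the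
same `C β k`. (In `exists_good` the countable index set is `Iic γ × ℕ`.) The functions are
`f' i = (f i, g i)`, where `g i : K → (ℕ → ℝ)` is continuous and injective on `F i` (as in `ZDP`, (0)).
The family `C`: `C β 0 = F j` if `β` has the immediate predecessor `j`, and `{o}` otherwise (as
`F' β` in `ZDP`). There is `θ` with `lev x < θ` for all `x` (compactness, as in `ZH` GEN (1)). For
`β ∈ S` and `α < θ` let
`O β α = {y ∈ F β | lev y = α ∧ ∃ i < β, SepK S F f lev q y i}`. It is relatively open in the compact
metrizable set `F β ∩ {α ≤ lev}`: if `U` is as in `Pcs.opn` for `y`, the points `y' ∈ U` with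
`α ≤ lev y'` have `q y' = q y`, so level `α`, and `SepK` for `y` is the same as for `y'`. So it is a
countable union of closed sets (`IsOpen.exists_iUnion_isClosed`), which are closed in `K`. The sets
`C β (n + 1)`, for `β ∈ S`, enumerate these closed sets for all `α < θ` (countably many); for
`β ∉ S` they are empty. Separation: if `x, x' ∈ C β (n + 1)`, both are in `O β α`, so they have level
`α`, and `f ξ x = f ξ x'` for all `ξ < β` gives `x = x'` by `SepK` for `x` (`i < β`, `β ∈ S`).
`Z`, `p`, the fibre over `o`, `p ⁻¹' F i` and total disconnectedness are as in `ZDP`. Let `D j` be the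
set of all `{z | (fun e : E => z.1.2 e) ∈ T}` with `E` a finite subset of `{(ξ, n) | ξ ≤ j}` and
`T : Set (E → Bool)`: clopen, countably many, an algebra, increasing.
*Separation in `Z`.* Let `SepK S F f lev q (p z₀) i`; the same `i` works. Let `δ ∈ S`, `i < δ`, `z, z'`
with `p z, p z' ∈ F δ`, `q (p z) = q (p z₀)`, `lev (p z₀) ≤ lev (p z')`, and suppose that no
`d ∈ D j`, `j < δ`, separates `z` and `z'`. Then all bits `(ξ, n)`, `ξ < δ`, of `z` and `z'` agree, so
`f' ξ (p z) = f' ξ (p z')` for `ξ < δ` (`eqf`), so `p z = p z'` by `SepK`. `p z ∈ O δ (lev (p z))`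
(`SepK` for `p z` is that for `p z₀`), so `p z` is in some `C δ k`, and `z = z'` by `uniq` (as `huniq`
in `SIG.lean`, for all `γ ≥ δ`). -/
def SpecZDV : Prop :=
  ∀ (I : Type v) [LinearOrder I] [WellFoundedLT I] [Uncountable I], (∀ i : I, (Iio i).Countable) →
  ∀ (S : Set I) (K : Type w) [TopologicalSpace K] [CompactSpace K] [T2Space K] (Q : Type w) (o : K)
    (F : I → Set K) (f : I → K → ℝ) (lev : K → I) (q : K → Q),
    (∀ i, IsClosed (F i)) → Monotone F → (∀ i, SecondCountableTopology (F i)) →
    (∀ i, o ∈ F i) → (∀ x, ∃ i, x ∈ F i) → (∀ i, Continuous (f i)) → Pcs lev q →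
    ∃ (Z : Type (max v w)) (_ : TopologicalSpace Z) (_ : CompactSpace Z) (_ : T2Space Z)
      (_ : TotallyDisconnectedSpace Z) (p : Z → K) (D : I → Set (Set Z)),
      Continuous p ∧ Function.Surjective p ∧ (∀ z z', p z = o → p z' = o → z = z') ∧
      (∀ i, SecondCountableTopology (p ⁻¹' F i)) ∧ Alg D ∧
      ∀ z₀ : Z, (∃ i, SepK S F f lev q (p z₀) i) →
        ∃ i, SepD S (fun i => p ⁻¹' F i) D (fun z => lev (p z)) (fun z => q (p z)) z₀ i

/-- **GEV** (220 lines, deps: none; variant of `ZH/GEN.lean`). The sets `G j`.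

Proof. Call a piece bounded if it is contained in some `F j`. (1) There is `θ` with `lev z < θ` for all
`z` (as in `GEN`). (2) For every `α` and `j` only countably many pieces of level `α` meet `F j`: their
intersections with `F j` are disjoint, nonempty and relatively open in the second countable space
`F j ∩ {α ≤ lev}` (`Pcs.opn`). So only countably many pieces meet `F j` at all. (3) For a bounded
piece `P` of level `α` let `Tr P` be the countable set of all `e ⊆ P` of the form `c ∩ {α ≤ lev}`, `c`
clopen (`GEN` (3)); choose a clopen `c (e)` with `e = c (e) ∩ {α ≤ lev}` for every `e ∈ Tr P`. Let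
`G j` be the union of `D j` and the set of all `c (e)`, `e ∈ Tr P`, `P` a bounded piece which meets
`F j`: countable, increasing. (4) For every piece `P` which is not bounded choose `i P` with `SepD`
(it depends on the piece only). By (2) there is `ι : I → I` such that `i P < ι k` for every unbounded
piece `P` which meets `F k`. (5) `fit`: it holds for all `j ∈ S`, not the least element, with `ι k < j`
for all `k < j` (`LgS.closed`, `LgS.nonmin`). Let `P` be the piece of `z₀`, `α = lev z₀`, and let `P`
meet `F k`, `k < j`; let `C ⊆ TT F j ∩ P` be closed with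
`C' = {z ∈ TT F j | α ≤ lev z, z ∉ C}` closed. Note `TT F j ⊆ F j` (closed, increasing).
*`P` bounded.* Let `U` be open with `U ∩ {α ≤ lev} = P`. `C` is disjoint from the closed set
`C' ∪ ({α ≤ lev} ∩ Uᶜ)`; so there is a clopen `c₀` which contains `C` and is disjoint from it. Then
`e = c₀ ∩ {α ≤ lev} ∈ Tr P`, `g = c (e) ∈ G k`, and for `z ∈ TT F j` with `α ≤ lev z`:
`z ∈ g ↔ z ∈ c₀ ↔ z ∈ C` (as `z ∈ c₀` excludes `z ∈ C'`).
*`P` not bounded.* `i P < ι k < j` and `j ∈ S`. For `z ∈ C`, `z' ∈ C'`: both are in `F j`, `z` is in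
`P`, `α ≤ lev z'` and `z ≠ z'`, so by `SepD` there are `j' < j` and `d ∈ D j'` with `z ∈ d`, `z' ∉ d`. By
compactness of `C'`, then of `C`, finite unions of finite intersections give `j' < j` and `g ∈ D j'`
with `C ⊆ g` and `C' ∩ g = ∅` (`D` is increasing and closed under finite unions and intersections).
For `z ∈ TT F j`, `α ≤ lev z`: `z ∈ g ↔ z ∈ C`. -/
def SpecGEV : Prop :=
  ∀ (I : Type v) [LinearOrder I] [WellFoundedLT I] [Uncountable I], (∀ i : I, (Iio i).Countable) →
  ∀ (S : Set I) (Z : Type w) [TopologicalSpace Z] [CompactSpace Z] [T2Space Z]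
    [TotallyDisconnectedSpace Z] (Q : Type u) (F : I → Set Z) (lev : Z → I) (q : Z → Q)
    (D : I → Set (Set Z)),
    (∀ i, IsClosed (F i)) → Monotone F → (∀ i, SecondCountableTopology (F i)) → Pcs lev q → Alg D →
    (∀ z₀, (∃ j, ∀ z, q z = q z₀ → z ∈ F j) ∨ ∃ i, SepD S F D lev q z₀ i) →
    ∃ G : I → Set (Set Z), GenS S F lev q G

/-- **SLV** (250 lines, deps: none; variant of `ZH/SLC.lean`). The correction along the levels.

Proof. `M i` is the set of all sums (`symmDiff`) of lists of members of `G i`, as in `SLC`; `T j`, `Z α`,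
`θ` as there. Let `Δ` be large and let `Δ₀` be the set of the `j ∈ Δ`, not the least element, which are
in the large set of `GenS.fit`. Define `L β` by recursion from `Δ₀`:
`L β = {i ∈ Δ₀ | ∀ γ < β, ∀ i₀ < i, ∃ j ∈ L γ, i₀ < j ∧ j < i}`; all are large (`LgS.lim`) and
decreasing in `β`. **Claim** as in `SLC`: for `i ∈ L β`, `i₀ < i`, `c ∈ M i₀`, `b` clopen with
`(b + c) ∩ T i ∩ Z β = ∅` there are `j ∈ Δ`, `j ≤ i`, `j' < j`, `c' ∈ M j'` with `b = c'` on `T j`.
Induction on `β`; cases (a), (b) are as in `SLC`, and (c) begins in the same way: `β' < β` is such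
that all points of the closed set `C = (b + c) ∩ T i ∩ Z β'` have level `β'`. By `Pcs.opn` and
compactness there are finitely many points `z_1 .. z_n` of level `β'` such that `C` is contained in the
union of their pieces `P_1 .. P_n`; they may be taken pairwise different. Let `i₁ < i` be at least
`i₀` and, for every `m` such that `P_m` meets some `F k`, `k < i`, at least one such `k`. By
`i ∈ L β` there is `j ∈ L β'` with `i₁ < j < i`. For every `m` let
`C_m = C ∩ P_m ∩ T j = (b + c) ∩ P_m ∩ T j` (`T j ⊆ T i`). It is closed: `C ∩ P_m` is `C` minus the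
open sets `U` (with `U ∩ Z β' = P_l`) of the other pieces of level `β'`; and
`(T j ∩ Z β') \ C_m` is closed, since `C_m = (b + c) ∩ U ∩ T j ∩ Z β'` with `U` open,
`U ∩ Z β' = P_m`. If `P_m` meets some `F k`, `k < i`, then it meets one with `k ≤ i₁ < j`, and by
`fit` (`j ∈ Δ₀`) there are `j_m < j`, `g_m ∈ G j_m` with `z ∈ g_m ↔ z ∈ C_m` for all
`z ∈ T j ∩ Z β'`. If it does not, then `C_m = ∅`, as `T j ⊆ F j` and `j < i`; put nothing. Let `c'` be
`c` plus the sum of the `g_m`, a member of `M j''` for some `j'' < j`, `i₀ ≤ j''`. For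
`z ∈ T j ∩ Z β'` exactly one `C_m` contains `z` if `z ∈ b + c` (then `z ∈ C`), and none otherwise
(the pieces are disjoint); so `z ∈ c' ↔ z ∈ b`. (Induction on the finite set of pieces: after the
pieces in `R`, `z ∈ c_R ↔ (z ∈ c xor z ∈ some C_m, m ∈ R)`.) So `(b + c') ∩ T j ∩ Z β' = ∅` and the
claim for `β'`, `j`, `j''`, `c'` applies. End as in `SLC`. -/
def SpecSLV : Prop :=
  ∀ (I : Type v) [LinearOrder I] [WellFoundedLT I] [Uncountable I], (∀ i : I, (Iio i).Countable) →
  ∀ (S : Set I), Stat S → ∀ (Z : Type w) [TopologicalSpace Z] [CompactSpace Z] (Q : Type u)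
    (F : I → Set Z) (lev : Z → I) (q : Z → Q) (G : I → Set (Set Z)),
    (∀ i, IsClosed (F i)) → Monotone F → Pcs lev q → GenS S F lev q G →
    ∃ M : I → Set (Set Z), ModS S F M

/-- **CHV** (200 lines, deps: none). `ZH/CHA.lean` with `LgS S` for `Lg`, `ModS`, `SysS` for `Mod`,
`Sys`; the same proof. -/
def SpecCHV : Prop :=
  ∀ (I : Type v) [LinearOrder I] [WellFoundedLT I] [Uncountable I], (∀ i : I, (Iio i).Countable) →
  ∀ (S : Set I) (A : Type u) (Z : A → Type w) [∀ a, TopologicalSpace (Z a)] (o : ∀ a, Z a)
    (F : ∀ a, I → Set (Z a)) (M : ∀ a, I → Set (Set (Z a))), (∀ a, Monotone (F a)) →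
    (∀ a i, o a ∈ F a i) → (∀ a z, ∃ i, z ∈ F a i) → (∀ a, ModS S (F a) (M a)) →
    ∀ X : Set (∀ a, Z a), (∀ x ∈ X, {a | x a ≠ o a}.Countable) →
    ∀ E : List (W X) → Finset X, ∃ (K : I → Set X) (M' : I → Set (Set X)),
      SysS S {l : Set X | ∃ a, ∃ b : Set (Z a), IsClopen b ∧ l = {x : X | x.1 a ∈ b}} K M' ∧
      ∀ s i, OverL (M' i) s → ∃ i', ∀ y ∈ E s, y ∈ K i'

/-- **SWV** (100 lines, deps: none). `ZH/SLW.lean` with `LgS S` for `Lg` and `SysS` for `Sys`; the same
proof. -/
def SpecSWV : Prop :=
  ∀ (I : Type v) [LinearOrder I] [WellFoundedLT I] [Uncountable I], (∀ i : I, (Iio i).Countable) →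
  ∀ (S : Set I) (Y : Type u) [TopologicalSpace Y] (𝔸 : Set (Set Y)) (K : I → Set Y)
    (M : I → Set (Set Y)), SysS S 𝔸 K M → ∀ Δ : W Y → Set I, (∀ w i, Over (M i) w → LgS S (Δ w)) →
    LgS S {i | ∀ w, Over 𝔸 w → ∃ j ≤ i, ∃ w', (∃ j', Over (M j') w') ∧ j ∈ Δ w' ∧
      ∀ y ∈ K j, val w y = val w' y}

/-- **TRV** (230 lines, deps: APX, LIM (of `ZH`), SWV). `ZH/TRE.lean` with `LgS S` for `Lg` and `SysS`
for `Sys`; the same proof (`LgS.exists_gt` needs `Stat S`). -/
def SpecTRV : Prop :=
  ∀ (I : Type v) [LinearOrder I] [WellFoundedLT I] [Uncountable I], (∀ i : I, (Iio i).Countable) →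
  ∀ (S : Set I), Stat S → ∀ (Y : Type u) [TopologicalSpace Y] [CompactSpace Y] (𝔸 : Set (Set Y)),
    (∀ l ∈ 𝔸, IsClopen l) → (∀ y y' : Y, (∀ l ∈ 𝔸, (y ∈ l ↔ y' ∈ l)) → y = y') →
    (∀ E : List (W Y) → Finset Y, ∃ (K : I → Set Y) (M : I → Set (Set Y)), SysS S 𝔸 K M ∧
      ∀ s i, OverL (M i) s → ∃ i', ∀ y ∈ E s, y ∈ K i') →
    IsLindelof {u : Y → ℝ | Continuous u}

/-- **ASV** (150 lines, deps: PCV, ZDV, GEV, SLV, CHV, TRV; variant of `ZH/ASM.lean`). The theorem.

Proof. `F a i` is second countable. For every `a` take `q' a` from PCV; `SepK` for `q a` gives `SepK`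
for `q' a` (if `q' y = q' x` then `q y = q x`). Take `Z a`, `p a`, `D a` from ZDV for `q' a`. Pull
back: `F' a i = p a ⁻¹' F a i`, `lev' a z = lev a (p a z)`, `q'' a z = q' a (p a z)`; `Pcs` is pulled
back (`opn` at `z`: the preimage of the open set at `p z`). For every `z₀` the piece of `z₀` is
contained in some `F' a j` (if the piece of `p z₀` is metrizable) or has `SepD`. So GEV and SLV give
`M a` with `ModS S (F' a) (M a)`. The rest is as in `ASM`, with CHV and TRV. -/
def SpecASV : Prop :=
  ∀ (I : Type v) [LinearOrder I] [WellFoundedLT I] [Uncountable I], (∀ i : I, (Iio i).Countable) →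
  ∀ (S : Set I), Stat S → ∀ (A : Type u) (K : A → Type w) [∀ a, TopologicalSpace (K a)]
    [∀ a, CompactSpace (K a)] [∀ a, T2Space (K a)] (Q : A → Type w) (o : ∀ a, K a)
    (F : ∀ a, I → Set (K a)) (f : ∀ a, I → K a → ℝ) (lev : ∀ a, K a → I) (q : ∀ a, K a → Q a),
    (∀ a i, IsClosed (F a i)) → (∀ a i, MetrizableSpace (F a i)) → (∀ a, Monotone (F a)) →
    (∀ a i, o a ∈ F a i) → (∀ a x, ∃ i, x ∈ F a i) → (∀ a i, Continuous (f a i)) →
    (∀ a, Pcs (lev a) (q a)) →
    (∀ a x, MetrizableSpace {y // q a y = q a x} ∨ ∃ i, SepK S (F a) (f a) (lev a) (q a) x i) →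
    ∀ X : Set (∀ a, K a), IsClosed X → (∀ x ∈ X, {a | x a ≠ o a}.Countable) →
    ∃ (Y : Type (max u v w)) (_ : TopologicalSpace Y) (_ : CompactSpace Y) (_ : T2Space Y)
      (g : Y → X), IsTopologicalBasis {s : Set Y | IsClopen s} ∧ Continuous g ∧
        Function.Surjective g ∧ IsLindelof {u : Y → ℝ | Continuous u}

end MPd1327c.ZV
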