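import Pool.Agent.Lib.MP_d1327c_gt.SPL
import Pool.Agent.Lib.MP_d1327c_gt.ZV.Spec

/-!
# MP_d1327c_gt, the general theorem: the zero-dimensional preimage (module ZDV)

The first part is a copy of the first part of `ZH/ZDP.lean` with a family `C β k`, `k : ℕ`, of closed
sets for every stage `β`.
-/

set_option autoImplicit false
set_option linter.unusedSectionVars false

open Set Topology TopologicalSpace

namespace MPd1327c.ZV

open MPd1327c.ZH

universe u v w

namespace ZDVM

variable {X : Type u} [TopologicalSpace X] {I : Type v} [LinearOrder I]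

abbrev ZZ (I : Type v) := I × ℕ → Bool

abbrev DD (X : Type u) (I : Type v) := ℕ → Set (X × ZZ I) × Set (X × ZZ I)

/-- the constraint at `γ` -/
def Cn (W : I → DD X I) (γ : I) (y : X × ZZ I) : Prop :=
  ∀ n, (y.2 (γ, n) = true → y ∈ (W γ n).1) ∧ (y.2 (γ, n) = false → y ∈ (W γ n).2)

/-- the constraints below `γ` -/
def Pre (W : I → DD X I) (γ : I) (y : X × ZZ I) : Prop := ∀ β < γ, Cn W β y

structure Good (f : I → X → (ℕ → ℝ)) (C : I → ℕ → Set X) (γ : I) (W : I → DD X I)
    (v : DD X I) : Prop where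
  closed : ∀ n, IsClosed (v n).1 ∧ IsClosed (v n).2
  dep : ∀ n (y y' : X × ZZ I), (∀ ξ ≤ γ, f ξ y.1 = f ξ y'.1) →
    (∀ β < γ, ∀ m, y.2 (β, m) = y'.2 (β, m)) →
    (y ∈ (v n).1 ↔ y' ∈ (v n).1) ∧ (y ∈ (v n).2 ↔ y' ∈ (v n).2)
  cover : ∀ n y, y ∈ (v n).1 ∨ y ∈ (v n).2
  miss : ∀ n, ∀ β ≤ γ, ∀ k, ∀ y : X × ZZ I, y.1 ∈ C β k → Pre W γ y →
    ¬(y ∈ (v n).1 ∧ y ∈ (v n).2)
  sep : ∀ y y' : X × ZZ I, f γ y.1 ≠ f γ y'.1 → ∃ n, y ∉ (v n).2 ∧ y' ∉ (v n).1

variable {f : I → X → (ℕ → ℝ)} {C : I → ℕ → Set X}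

theorem pre_congr {W W' : I → DD X I} {γ : I} (h : ∀ β < γ, W β = W' β) (y : X × ZZ I) :
    Pre W γ y ↔ Pre W' γ y := by
  refine forall₂_congr fun β hβ => ?_
  rw [Cn, Cn, h β hβ]

theorem good_loc (γ : I) (W W' : I → DD X I) (v : DD X I) (h : ∀ β < γ, W β = W' β)
    (hg : Good f C γ W v) : Good f C γ W' v :=
  ⟨hg.closed, hg.dep, hg.cover, fun n β hβ k y hy hp =>
    hg.miss n β hβ k y hy ((pre_congr h y).2 hp), hg.sep⟩

theorem eqf {W : I → DD X I} {ξ : I} (hg : Good f C ξ W (W ξ)) {y y' : X × ZZ I}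
    (hy : Cn W ξ y) (hy' : Cn W ξ y') (h : ∀ m, y.2 (ξ, m) = y'.2 (ξ, m)) :
    f ξ y.1 = f ξ y'.1 := by
  by_contra hne
  obtain ⟨n, h1, h2⟩ := hg.sep y y' hne
  rcases hb : y.2 (ξ, n) with _ | _
  · exact h1 ((hy n).2 hb)
  · exact h2 ((hy' n).1 (by rw [← h n, hb]))

theorem uniq [WellFoundedLT I] {W : I → DD X I} {γ β : I} {k : ℕ}
    (hg : ∀ ξ < γ, Good f C ξ W (W ξ)) (hβ : β ≤ γ)
    (hB : ∀ x ∈ C β k, ∀ x' ∈ C β k, (∀ ξ < β, f ξ x = f ξ x') → x = x')
    {y y' : X × ZZ I} (hyF : y.1 ∈ C β k) (hyF' : y'.1 ∈ C β k) (hy : Pre W γ y) (hy' : Pre W γ y')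
    (h : ∀ α < β, ∀ m, y.2 (α, m) = y'.2 (α, m)) :
    y.1 = y'.1 ∧ ∀ α < γ, ∀ m, y.2 (α, m) = y'.2 (α, m) := by
  have h1 : y.1 = y'.1 := hB _ hyF _ hyF' fun ξ hξ =>
    eqf (hg ξ (hξ.trans_le hβ)) (hy ξ (hξ.trans_le hβ)) (hy' ξ (hξ.trans_le hβ)) (h ξ hξ)
  refine ⟨h1, fun α => ?_⟩
  induction α using WellFoundedLT.induction with
  | ind α ih =>
    intro hα n
    by_cases hαβ : α < β
    · exact h α hαβ n
    push Not at hαβ
    have hd := (hg α hα).dep n y y' (fun ξ _ => by rw [h1]) (fun ζ hζ => ih ζ hζ (hζ.trans hα))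
    have hm := (hg α hα).miss n β hαβ k y hyF (fun ζ hζ => hy ζ (hζ.trans hα))
    rcases hb : y.2 (α, n) with _ | _
    · rcases hb' : y'.2 (α, n) with _ | _
      · rfl
      · exact (hm ⟨hd.1.2 ((hy' α hα n).1 hb'), (hy α hα n).2 hb⟩).elim
    · rcases hb' : y'.2 (α, n) with _ | _
      · exact (hm ⟨(hy α hα n).1 hb, hd.2.2 ((hy' α hα n).2 hb')⟩).elim
      · rfl

theorem isClosed_cn {W : I → DD X I} {γ : I} (hW : ∀ n, IsClosed (W γ n).1 ∧ IsClosed (W γ n).2) :
    IsClosed {y : X × ZZ I | Cn W γ y} := by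
  have h1 : {y : X × ZZ I | Cn W γ y} = ⋂ n, (({y | y.2 (γ, n) = false} ∪ (W γ n).1) ∩
      ({y | y.2 (γ, n) = true} ∪ (W γ n).2)) := by
    ext y
    simp only [Cn, mem_iInter, mem_inter_iff, mem_union, mem_ofPred_eq]
    refine forall_congr' fun n => ?_
    rcases y.2 (γ, n) with _ | _ <;> simp
  rw [h1]
  have hc : ∀ n, Continuous fun y : X × ZZ I => y.2 (γ, n) := fun n =>
    (continuous_apply (γ, n)).comp continuous_snd
  refine isClosed_iInter fun n => ?_
  refine IsClosed.inter (IsClosed.union ?_ (hW n).1) (IsClosed.union ?_ (hW n).2)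
  · exact (isClosed_discrete {false}).preimage (hc n)
  · exact (isClosed_discrete {true}).preimage (hc n)

theorem isClosed_pre {W : I → DD X I} {γ : I}
    (hW : ∀ β < γ, ∀ n, IsClosed (W β n).1 ∧ IsClosed (W β n).2) :
    IsClosed {y : X × ZZ I | Pre W γ y} := by
  have h1 : {y : X × ZZ I | Pre W γ y} = ⋂ β, ⋂ (_ : β < γ), {y | Cn W β y} := by
    ext y
    simp [Pre]
  rw [h1]
  exact isClosed_iInter fun β => isClosed_iInter fun hβ => isClosed_cn (hW β hβ)

theorem exists_good [CompactSpace X] [WellFoundedLT I]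
    (hI : ∀ i : I, (Iio i).Countable) (hf : ∀ i, Continuous (f i))
    (hF : ∀ i k, IsClosed (C i k))
    (hS : ∀ β k, ∀ x ∈ C β k, ∀ x' ∈ C β k, (∀ ξ < β, f ξ x = f ξ x') → x = x')
    (γ : I) (W : I → DD X I) (hW : ∀ β < γ, Good f C β W (W β)) :
    ∃ v, Good f C γ W v := by
  classical
  have hc1 : Countable (Iio γ) := (hI γ).to_subtype
  have hIic : (Iic γ).Countable := by
    rw [← Iio_union_right]
    exact (hI γ).union (countable_singleton γ)
  have hc2 : Countable (Iic γ) := hIic.to_subtype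
  let P := (Iic γ → (ℕ → ℝ)) × (Iio γ × ℕ → Bool)
  let Φ : X × ZZ I → P := fun y => (fun ξ => f ξ y.1, fun q => y.2 (q.1, q.2))
  have hΦ : Continuous Φ := by
    refine Continuous.prodMk (continuous_pi fun ξ => (hf ξ).comp continuous_fst)
      (continuous_pi fun q => (continuous_apply _).comp continuous_snd)
  let K := Iic γ × ℕ
  have hK : Countable K := inferInstance
  let GG : Option K → Set P := fun o => match o with
    | none => ∅
    | some β => Φ '' {y | Pre W γ y ∧ y.1 ∈ C β.1 β.2}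
  obtain ⟨e, he⟩ := exists_surjective_nat (Option K)
  have hsplit : ∀ k, ∀ A D : Set P, IsClosed A → IsClosed D → Disjoint A D → ∃ H H' : Set P,
      IsClosed H ∧ IsClosed H' ∧ H ∪ H' = GG (e k) ∧ Disjoint H H' ∧ GG (e k) ∩ A ⊆ H ∧
        GG (e k) ∩ D ⊆ H' := by
    intro k A D hA hD hAD
    rcases e k with _ | ⟨⟨β, hβγ⟩, l⟩
    · refine ⟨∅, ∅, isClosed_empty, isClosed_empty, ?_, ?_, ?_, ?_⟩
      · simp [GG]
      · simp
      · simp [GG]
      · simp [GG]
    · have hcl : IsClosed {y : X × ZZ I | Pre W γ y ∧ y.1 ∈ C β l} :=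
        (isClosed_pre fun α hα => (hW α hα).closed).inter ((hF β l).preimage continuous_fst)
      have hcomp : IsCompact (GG (some ⟨⟨β, hβγ⟩, l⟩)) := hcl.isCompact.image hΦ
      refine split (J := Iio β × ℕ) _ hcomp hcomp.isClosed
        (fun j z => z.2 (⟨j.1, lt_of_lt_of_le j.1.2 hβγ⟩, j.2)) (fun j =>
          (continuous_apply _).comp continuous_snd) ?_ A D hA hD hAD
      rintro _ ⟨y, ⟨hy1, hy2⟩, rfl⟩ _ ⟨y', ⟨hy1', hy2'⟩, rfl⟩ hj
      obtain ⟨h1, h2⟩ := uniq hW hβγ (hS β l) hy2 hy2' hy1 hy1'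
        (fun α hα m => hj (⟨α, hα⟩, m))
      refine Prod.ext ?_ ?_
      · funext ξ
        show f ξ y.1 = f ξ y'.1
        rw [h1]
      · funext q
        exact h2 q.1 q.1.2 q.2
  obtain ⟨v, h1, h2, h3, h4⟩ := family (P := P) (fun k => GG (e k)) hsplit
  refine ⟨fun n => (Φ ⁻¹' (v n).1, Φ ⁻¹' (v n).2), ⟨fun n => ⟨(h1 n).1.preimage hΦ,
    (h1 n).2.preimage hΦ⟩, ?_, fun n y => h2 n (Φ y), ?_, ?_⟩⟩
  · intro n y y' hff hee
    have h5 : Φ y = Φ y' := by
      refine Prod.ext ?_ ?_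
      · funext ξ
        exact hff ξ ξ.2
      · funext q
        exact hee q.1 q.1.2 q.2
    simp only [mem_preimage, h5, and_self]
  · intro n β hβγ l y hyF hyP
    obtain ⟨k, hk⟩ := he (some ⟨⟨β, hβγ⟩, l⟩)
    refine h3 n k (Φ y) ?_
    show Φ y ∈ GG (e k)
    rw [hk]
    exact ⟨y, ⟨hyP, hyF⟩, rfl⟩
  · intro y y' hne
    refine h4 (Φ y) (Φ y') fun h5 => hne ?_
    exact congrFun (congrArg Prod.fst h5) ⟨γ, le_rfl⟩

/-- all the data -/
theorem exists_data [CompactSpace X] [WellFoundedLT I]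
    (hI : ∀ i : I, (Iio i).Countable) (hf : ∀ i, Continuous (f i))
    (hF : ∀ i k, IsClosed (C i k))
    (hS : ∀ β k, ∀ x ∈ C β k, ∀ x' ∈ C β k, (∀ ξ < β, f ξ x = f ξ x') → x = x') :
    ∃ W : I → DD X I, ∀ γ, Good f C γ W (W γ) :=
  exists_rec (fun γ W v => Good f C γ W v) (fun γ W W' v h hg => good_loc γ W W' v h hg)
    (fun γ W hW => exists_good hI hf hF hS γ W hW)

/-- every partial point extends -/
theorem exists_ext [WellFoundedLT I] {W : I → DD X I} (hW : ∀ γ, Good f C γ W (W γ)) (δ : I)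
    (x : X) (ε : ZZ I) (h : Pre W δ (x, ε)) :
    ∃ ε' : ZZ I, (∀ β < δ, ∀ m, ε' (β, m) = ε (β, m)) ∧ ∀ γ, Cn W γ (x, ε') := by
  classical
  obtain ⟨w, hw⟩ := exists_rec (I := I) (D := ℕ → Bool)
    (fun γ p v => (γ < δ → ∀ m, v m = ε (γ, m)) ∧
      ∀ n, (v n = true → (x, fun q : I × ℕ => p q.1 q.2) ∈ (W γ n).1) ∧
        (v n = false → (x, fun q : I × ℕ => p q.1 q.2) ∈ (W γ n).2))
    (by
      rintro γ p q v hpq ⟨h1, h2⟩
      refine ⟨h1, fun n => ?_⟩
      have hd := (hW γ).dep n (x, fun r : I × ℕ => p r.1 r.2) (x, fun r : I × ℕ => q r.1 r.2)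
        (fun _ _ => rfl) (fun β hβ m => congrFun (hpq β hβ) m)
      exact ⟨fun hv => hd.1.1 ((h2 n).1 hv), fun hv => hd.2.1 ((h2 n).2 hv)⟩)
    (by
      intro γ p hp
      by_cases hγ : γ < δ
      · refine ⟨fun m => ε (γ, m), fun _ _ => rfl, fun n => ?_⟩
        have hd := (hW γ).dep n (x, ε) (x, fun r : I × ℕ => p r.1 r.2)
          (fun _ _ => rfl) (fun β hβ m => ((hp β hβ).1 (hβ.trans hγ) m).symm)
        exact ⟨fun hv => hd.1.1 ((h γ hγ n).1 hv), fun hv => hd.2.1 ((h γ hγ n).2 hv)⟩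
      · refine ⟨fun n => decide ((x, fun r : I × ℕ => p r.1 r.2) ∈ (W γ n).1),
          fun h => (hγ h).elim, fun n => ⟨fun hv => by simpa using hv, fun hv => ?_⟩⟩
        have h1 : (x, fun r : I × ℕ => p r.1 r.2) ∉ (W γ n).1 := by simpa using hv
        exact ((hW γ).cover n _).resolve_left h1)
  exact ⟨fun q => w q.1 q.2, fun β hβ m => (hw β).1 hβ m, fun γ n => (hw γ).2 n⟩


/-- a continuous function with values in `ℕ → ℝ` which is injective on a given closed second
countable set -/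
theorem injf {K : Type w} [TopologicalSpace K] [CompactSpace K] [T2Space K] (C : Set K)
    (hC : IsClosed C) (hne : C.Nonempty) (h2 : SecondCountableTopology C) :
    ∃ f : K → (ℕ → ℝ), Continuous f ∧ ∀ x ∈ C, ∀ y ∈ C, f x = f y → x = y := by
  have hcomp : CompactSpace C := isCompact_iff_compactSpace.1 hC.isCompact
  have hmet : MetrizableSpace C := metrizableSpace_of_t3_secondCountable C
  let _ := metrizableSpaceMetric C
  have hne' : Nonempty C := hne.to_subtype
  let g : C(C, ℕ → ℝ) := ⟨fun x n => dist x (denseSeq C n),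
    continuous_pi fun n => continuous_id.dist continuous_const⟩
  obtain ⟨G, hG⟩ := ContinuousMap.exists_restrict_eq hC g
  refine ⟨G, G.continuous, fun x hx y hy hxy => ?_⟩
  have h3 : ∀ z : C, G z = g z := fun z => by
    rw [← hG]
    rfl
  have h4 : ∀ n, dist (⟨x, hx⟩ : C) (denseSeq C n) = dist (⟨y, hy⟩ : C) (denseSeq C n) := by
    intro n
    have h5 := h3 ⟨x, hx⟩
    have h6 := h3 ⟨y, hy⟩
    have h7 : g ⟨x, hx⟩ = g ⟨y, hy⟩ := by
      rw [← h5, ← h6]
      exact hxy
    exact congrFun h7 n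
  have h5 : (⟨x, hx⟩ : C) = ⟨y, hy⟩ := by
    have h6 : Continuous fun z : C => dist (⟨x, hx⟩ : C) z := continuous_const.dist continuous_id
    have h7 : Continuous fun z : C => dist (⟨y, hy⟩ : C) z := continuous_const.dist continuous_id
    have h8 : (fun z : C => dist (⟨x, hx⟩ : C) z) = fun z : C => dist (⟨y, hy⟩ : C) z :=
      (denseRange_denseSeq C).equalizer h6 h7 (funext h4)
    have h9 := congrFun h8 ⟨x, hx⟩
    simp only [dist_self] at h9
    exact (dist_eq_zero.1 h9.symm).symm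
  exact congrArg Subtype.val h5


/-! ### The closed sets `C β (n + 1)` -/

section closedsets

variable {K : Type w} [TopologicalSpace K] {Q : Type w} {S : Set I} {F : I → Set K}
  {h : I → K → ℝ} {lev : K → I} {q : K → Q}

/-- the points of `F β` of level `α` with `SepK` below `β` -/
def OO (S : Set I) (F : I → Set K) (h : I → K → ℝ) (lev : K → I) (q : K → Q) (β α : I) : Set K :=
  {y | y ∈ F β ∧ lev y = α ∧ ∃ i < β, SepK S F h lev q y i}

theorem sepK_congr {x x' : K} (hq : q x = q x') (hl : lev x = lev x') {i : I}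
    (hs : SepK S F h lev q x i) : SepK S F h lev q x' i := by
  intro δ hδ hi y hy hyq y' hy' hlv
  exact hs δ hδ hi y hy (hyq.trans hq.symm) y' hy' (hl.le.trans hlv)

/-- `OO β α` is a countable union of closed sets -/
theorem exists_closed [CompactSpace K] [T2Space K] (hF : ∀ i, IsClosed (F i))
    (h2 : ∀ i, SecondCountableTopology (F i)) (hP : Pcs lev q) (β α : I) :
    ∃ A : ℕ → Set K, (∀ n, IsClosed (A n)) ∧ ⋃ n, A n = OO S F h lev q β α := by
  let T : Set K := F β ∩ {y | α ≤ lev y}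
  have hT : IsClosed T := (hF β).inter (hP.closed α)
  have hTc : CompactSpace T := isCompact_iff_compactSpace.1 hT.isCompact
  have := h2 β
  have hsub : T ⊆ F β := inter_subset_left
  have hsc : SecondCountableTopology T :=
    (IsEmbedding.inclusion hsub).isInducing.secondCountableTopology
  have hmet : MetrizableSpace T := metrizableSpace_of_t3_secondCountable T
  let _ := metrizableSpaceMetric T
  have hopen : IsOpen (Subtype.val ⁻¹' OO S F h lev q β α : Set T) := by
    rw [isOpen_iff_forall_mem_open]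
    rintro ⟨y, hyF, hyα⟩ ⟨h1, h2, i, hi, hs⟩
    obtain ⟨U, hU, hyU, hUq⟩ := hP.opn y
    refine ⟨Subtype.val ⁻¹' U, ?_, hU.preimage continuous_subtype_val, hyU⟩
    rintro ⟨z, hzF, hzα⟩ hzU
    have h3 : q z = q y := hUq z hzU (h2.le.trans hzα)
    have h4 : lev z = lev y := hP.lev_eq z y h3
    exact ⟨hzF, h4.trans h2, i, hi, sepK_congr h3.symm h4.symm hs⟩
  obtain ⟨A, hA1, -, hA3, -⟩ := hopen.exists_iUnion_isClosed
  refine ⟨fun n => Subtype.val '' A n, fun n => hT.isClosedEmbedding_subtypeVal.isClosedMap _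
    (hA1 n), ?_⟩
  rw [← image_iUnion, hA3, Subtype.image_preimage_coe]
  apply inter_eq_self_of_subset_right
  rintro y ⟨h1, h2, -⟩
  exact ⟨h1, h2.ge⟩

/-- the levels are bounded -/
theorem exists_bound [Uncountable I] (hI : ∀ i : I, (Iio i).Countable) [CompactSpace K]
    {lev : K → I} (hcl : ∀ α, IsClosed {z | α ≤ lev z}) : ∃ θ, ∀ z, lev z < θ := by
  by_contra hcon
  push Not at hcon
  have hne : Nonempty I := by
    by_contra h
    rw [not_nonempty_iff] at h
    exact not_countable (α := I) inferInstance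
  have h := IsCompact.nonempty_iInter_of_directed_nonempty_isCompact_isClosed
    (fun α : I => {z | α ≤ lev z})
    (by
      intro α β
      refine ⟨max α β, ?_, ?_⟩
      · intro z hz
        exact (le_max_left α β).trans hz
      · intro z hz
        exact (le_max_right α β).trans hz)
    (fun α => hcon α) (fun α => (hcl α).isCompact) hcl
  obtain ⟨z, hz⟩ := h
  rw [mem_iInter] at hz
  obtain ⟨j, hj⟩ := exists_gt' hI (lev z)
  exact absurd (hz j) (not_le.2 hj)

/-- an enumeration of closed sets which are contained in some `OO β α` and cover all of them -/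
theorem exists_enum [Uncountable I] (hI : ∀ i : I, (Iio i).Countable) [CompactSpace K] [T2Space K]
    (hF : ∀ i, IsClosed (F i)) (h2 : ∀ i, SecondCountableTopology (F i)) (hP : Pcs lev q) (β : I) :
    ∃ A : ℕ → Set K, (∀ n, IsClosed (A n)) ∧ (∀ n, A n = ∅ ∨ ∃ α, A n ⊆ OO S F h lev q β α) ∧
      ∀ α, ∀ x ∈ OO S F h lev q β α, ∃ n, x ∈ A n := by
  obtain ⟨θ, hθ⟩ := exists_bound hI hP.closed
  choose B hB1 hB2 using fun α => exists_closed (S := S) (F := F) (h := h) (lev := lev) (q := q)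
    hF h2 hP β α
  let 𝒞 : Set (Set K) := insert ∅ (⋃ α ∈ Iio θ, range (B α))
  have hc : 𝒞.Countable := ((hI θ).biUnion fun α _ => countable_range _).insert _
  obtain ⟨A, hA⟩ := hc.exists_eq_range ⟨∅, mem_insert _ _⟩
  have hmem : ∀ n, A n ∈ 𝒞 := fun n => by
    rw [hA]
    exact mem_range_self n
  refine ⟨A, fun n => ?_, fun n => ?_, fun α x hx => ?_⟩
  · rcases hmem n with h3 | h3
    · rw [h3]
      exact isClosed_empty
    · simp only [mem_iUnion, mem_range] at h3
      obtain ⟨α, -, k, hk⟩ := h3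
      rw [← hk]
      exact hB1 α k
  · rcases hmem n with h3 | h3
    · exact Or.inl h3
    · right
      simp only [mem_iUnion, mem_range] at h3
      obtain ⟨α, -, k, hk⟩ := h3
      refine ⟨α, ?_⟩
      rw [← hk, ← hB2 α]
      exact subset_iUnion _ k
  · have h3 : α < θ := hx.2.1 ▸ hθ x
    have h4 := hx
    rw [← hB2 α, mem_iUnion] at h4
    obtain ⟨k, hk⟩ := h4
    have h5 : B α k ∈ 𝒞 := Or.inr (mem_biUnion h3 (mem_range_self k))
    rw [hA] at h5
    obtain ⟨n, hn⟩ := h5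
    exact ⟨n, by rw [hn]; exact hk⟩

end closedsets

/-! ### Sets which depend on finitely many bits -/

section bits

variable {Y : Type u} [TopologicalSpace Y]

/-- the clopen sets which depend on finitely many of the bits up to `j` -/
def BD (b : Y → I × ℕ → Bool) (j : I) : Set (Set Y) :=
  {d | IsClopen d ∧ ∃ E : Finset (I × ℕ), (∀ e ∈ E, e.1 ≤ j) ∧
    ∀ z z', (∀ e ∈ E, b z e = b z' e) → (z ∈ d ↔ z' ∈ d)}

theorem alg_BD (hI : ∀ i : I, (Iio i).Countable) (b : Y → I × ℕ → Bool) : Alg (BD b) where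
  mono := by
    rintro i j hij d ⟨h1, E, h2, h3⟩
    exact ⟨h1, E, fun e he => (h2 e he).trans hij, h3⟩
  cnt := by
    classical
    intro j
    have h1 : {E : Finset (I × ℕ) | ∀ e ∈ E, e.1 ≤ j}.Countable := by
      have h2 : ((Iic j) ×ˢ (univ : Set ℕ)).Countable := (Iic_countable hI j).prod countable_univ
      refine (countable_ofPred_finite_subset h2).preimage_of_injOn (f := fun E : Finset (I × ℕ) =>
        (E : Set (I × ℕ))) (Finset.coe_injective.injOn) |>.mono ?_
      intro E hE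
      exact ⟨E.finite_toSet, fun e he => ⟨hE e he, trivial⟩⟩
    refine (h1.biUnion (t := fun (E : Finset (I × ℕ)) _ => range fun T : Set (E → Bool) =>
      {z : Y | (fun e : E => b z e) ∈ T}) fun E _ => (finite_range _).countable).mono ?_
    rintro d ⟨-, E, h2, h3⟩
    refine mem_biUnion (show E ∈ {E : Finset (I × ℕ) | ∀ e ∈ E, e.1 ≤ j} from h2)
      ⟨(fun z : Y => fun e : E => b z e) '' d, ?_⟩
    ext z
    constructor
    · rintro ⟨z', hz', hzz⟩
      exact (h3 z' z fun e he => congrFun hzz ⟨e, he⟩).1 hz'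
    · intro hz
      exact ⟨z, hz, rfl⟩
  clo := fun i d hd => hd.1
  uni := fun i => ⟨isClopen_univ, ∅, by simp, by simp⟩
  emp := fun i => ⟨isClopen_empty, ∅, by simp, by simp⟩
  union := by
    classical
    rintro i c ⟨h1, E, h2, h3⟩ d ⟨h4, E', h5, h6⟩
    refine ⟨h1.union h4, E ∪ E', ?_, ?_⟩
    · intro e he
      rcases Finset.mem_union.1 he with he | he
      · exact h2 e he
      · exact h5 e he
    · intro z z' hz
      exact or_congr (h3 z z' fun e he => hz e (Finset.mem_union_left _ he))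
        (h6 z z' fun e he => hz e (Finset.mem_union_right _ he))
  inter := by
    classical
    rintro i c ⟨h1, E, h2, h3⟩ d ⟨h4, E', h5, h6⟩
    refine ⟨h1.inter h4, E ∪ E', ?_, ?_⟩
    · intro e he
      rcases Finset.mem_union.1 he with he | he
      · exact h2 e he
      · exact h5 e he
    · intro z z' hz
      exact and_congr (h3 z z' fun e he => hz e (Finset.mem_union_left _ he))
        (h6 z z' fun e he => hz e (Finset.mem_union_right _ he))

/-- two points which are not separated by `BD j`, `j < δ`, have the same bits below `δ` -/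
theorem bits_eq {b : Y → I × ℕ → Bool} (hb : ∀ e, Continuous fun z => b z e) {δ : I} {z z' : Y}
    (h : ∀ j < δ, ∀ d ∈ BD b j, z ∈ d → z' ∈ d) : ∀ ξ < δ, ∀ n, b z (ξ, n) = b z' (ξ, n) := by
  intro ξ hξ n
  have h1 : {x : Y | b x (ξ, n) = b z (ξ, n)} ∈ BD b ξ := by
    refine ⟨(isClopen_discrete {b z (ξ, n)}).preimage (hb (ξ, n)), {(ξ, n)}, ?_, ?_⟩
    · intro e he
      rw [Finset.mem_singleton.1 he]
    · intro x x' hx
      have h2 := hx (ξ, n) (Finset.mem_singleton_self _)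
      simp only [mem_ofPred_eq, h2]
  exact (h ξ hξ _ h1 rfl).symm

end bits

end ZDVM

open ZDVM

/-- **ZDV** -/
theorem specZDV : SpecZDV.{v, w} := by
  intro I _ _ _ hI S K _ _ _ Q o F h lev q hF hmono h2c ho hU hh hP
  classical
  choose g hg hinj using fun i => injf (F i) (hF i) ⟨o, ho i⟩ (h2c i)
  let f : I → K → (ℕ → ℝ) := fun i x n => match n with
    | 0 => h i x
    | n + 1 => g i x n
  have hf : ∀ i, Continuous (f i) := by
    intro i
    refine continuous_pi fun n => ?_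
    rcases n with _ | n
    · exact hh i
    · exact (continuous_apply n).comp (hg i)
  have hfg : ∀ i x y, f i x = f i y → g i x = g i y := fun i x y hxy => funext fun n =>
    congrFun hxy (n + 1)
  have hfh : ∀ i x y, f i x = f i y → h i x = h i y := fun i x y hxy => congrFun hxy 0
  choose A hA1 hA2 hA3 using fun β => exists_enum (S := S) (F := F) (h := h) (lev := lev) (q := q)
    hI hF h2c hP β
  let C : I → ℕ → Set K := fun β n => match n with
    | 0 => if h : ∃ j, j < β ∧ ∀ i < β, i ≤ j then F h.choose else {o}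
    | n + 1 => if β ∈ S then A β n else ∅
  have hC : ∀ β k, IsClosed (C β k) := by
    intro β k
    rcases k with _ | k
    · by_cases h : ∃ j, j < β ∧ ∀ i < β, i ≤ j
      · simp only [C, dif_pos h]
        exact hF _
      · simp only [C, dif_neg h]
        exact isClosed_singleton
    · by_cases h : β ∈ S
      · simp only [C, if_pos h]
        exact hA1 β k
      · simp only [C, if_neg h]
        exact isClosed_empty
  have hS : ∀ β k, ∀ x ∈ C β k, ∀ x' ∈ C β k, (∀ ξ < β, f ξ x = f ξ x') → x = x' := by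
    intro β k x hx x' hx' hxx
    rcases k with _ | k
    · by_cases h : ∃ j, j < β ∧ ∀ i < β, i ≤ j
      · simp only [C, dif_pos h] at hx hx'
        exact hinj _ x hx x' hx' (hfg _ _ _ (hxx _ h.choose_spec.1))
      · simp only [C, dif_neg h, mem_singleton_iff] at hx hx'
        rw [hx, hx']
    · by_cases h : β ∈ S
      · simp only [C, if_pos h] at hx hx'
        rcases hA2 β k with h1 | ⟨α, h1⟩
        · rw [h1] at hx
          exact hx.elim
        · obtain ⟨h2, h3, i, h4, h5⟩ := h1 hx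
          obtain ⟨h6, h7, -⟩ := h1 hx'
          exact h5 β h h4 x h2 rfl x' h6 (h3.trans h7.symm).le fun j hj => hfh _ _ _ (hxx j hj)
      · simp only [C, if_neg h] at hx
        exact hx.elim
  obtain ⟨W, hW⟩ := exists_data hI hf hC hS
  let Y := {y : K × ZZ I // ∀ γ, Cn W γ y}
  have hYc : IsClosed {y : K × ZZ I | ∀ γ, Cn W γ y} := by
    rw [show {y : K × ZZ I | ∀ γ, Cn W γ y} = ⋂ γ, {y | Cn W γ y} by ext; simp]
    exact isClosed_iInter fun γ => isClosed_cn (hW γ).closed
  have hYcomp : CompactSpace Y := isCompact_iff_compactSpace.1 hYc.isCompact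
  obtain ⟨m, -, hm⟩ := (wellFounded_lt (α := I)).has_min univ univ_nonempty
  have hm' : ∀ i : I, ¬ i < m := fun i => hm i trivial
  have hunb : ∀ i : I, ∃ j, i < j := fun i => exists_gt' hI i
  -- uniqueness
  have huniq : ∀ β k, ∀ y y' : Y, y.1.1 ∈ C β k → y'.1.1 ∈ C β k →
      (∀ α < β, ∀ n, y.1.2 (α, n) = y'.1.2 (α, n)) → y = y' := by
    intro β k y y' hy hy' hj
    have h1 : ∀ γ, β ≤ γ → y.1.1 = y'.1.1 ∧ ∀ α < γ, ∀ n, y.1.2 (α, n) = y'.1.2 (α, n) :=
      fun γ hγ => uniq (γ := γ) (fun ξ _ => hW ξ) hγ (hS β k) hy hy'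
        (fun ξ _ => y.2 ξ) (fun ξ _ => y'.2 ξ) hj
    refine Subtype.ext (Prod.ext (h1 β le_rfl).1 ?_)
    funext r
    obtain ⟨γ, hγ⟩ := hunb r.1
    exact (h1 (max γ β) (le_max_right _ _)).2 r.1 (hγ.trans_le (le_max_left _ _)) r.2
  have hsep : ∀ x y : K, (∀ i, f i x = f i y) → x = y := by
    intro x y hxy
    obtain ⟨i, hi⟩ := hU x
    obtain ⟨j, hj⟩ := hU y
    exact hinj (max i j) x (hmono (le_max_left i j) hi) y (hmono (le_max_right i j) hj)
      (hfg _ _ _ (hxy _))
  have hinj' : ∀ y y' : Y, y.1.2 = y'.1.2 → y = y' := by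
    intro y y' h
    refine Subtype.ext (Prod.ext (hsep _ _ fun ξ => ?_) h)
    exact eqf (hW ξ) (y.2 ξ) (y'.2 ξ) fun m => by rw [h]
  have htd : TotallyDisconnectedSpace Y := by
    refine ⟨isTotallyDisconnected_of_image (f := fun y : Y => y.1.2)
      (continuous_snd.comp continuous_subtype_val).continuousOn (fun y y' h => hinj' y y' h) ?_⟩
    exact isTotallyDisconnected_of_totallyDisconnectedSpace _
  -- lifts
  have hlift : ∀ x : K, ∃ y : Y, y.1.1 = x := by
    intro x
    obtain ⟨ε, -, hε⟩ := exists_ext hW m x (fun _ => false) (fun β hβ => (hm' β hβ).elim)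
    exact ⟨⟨(x, ε), hε⟩, rfl⟩
  have hbc : ∀ e : I × ℕ, Continuous fun y : Y => y.1.2 e := fun e =>
    (continuous_apply e).comp (continuous_snd.comp continuous_subtype_val)
  refine ⟨Y, inferInstance, hYcomp, inferInstance, htd, fun y => y.1.1, BD fun y e => y.1.2 e,
    continuous_fst.comp continuous_subtype_val, hlift, ?_, ?_, alg_BD hI _, ?_⟩
  · intro z z' hz hz'
    have hFm : C m 0 = {o} := dif_neg (fun ⟨j, hj, _⟩ => hm' j hj)
    refine huniq m 0 z z' ?_ ?_ fun α hα => (hm' α hα).elim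
    · rw [hFm]
      exact hz
    · rw [hFm]
      exact hz'
  · intro i
    obtain ⟨β, hβ, hmin⟩ := (wellFounded_lt (α := I)).has_min {b | i < b} (hunb i)
    have hle : ∀ k < β, k ≤ i := fun k hk => not_lt.1 fun h => hmin k h hk
    have hex : ∃ j, j < β ∧ ∀ i < β, i ≤ j := ⟨i, hβ, hle⟩
    have hch : hex.choose = i :=
      le_antisymm (hle _ hex.choose_spec.1) (hex.choose_spec.2 i hβ)
    have hFβ : C β 0 = F i := by
      simp only [C, dif_pos hex, hch]
    have hcl : IsClosed ((fun y : Y => y.1.1) ⁻¹' F i) :=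
      (hF i).preimage (continuous_fst.comp continuous_subtype_val)
    have hcomp : CompactSpace ((fun y : Y => y.1.1) ⁻¹' F i) :=
      isCompact_iff_compactSpace.1 hcl.isCompact
    have hc1 : Countable (Iio β) := (hI β).to_subtype
    let ψ : ((fun y : Y => y.1.1) ⁻¹' F i) → (Iio β × ℕ → Bool) := fun y r => y.1.1.2 (r.1, r.2)
    have hψ : Continuous ψ := continuous_pi fun r =>
      (continuous_apply _).comp (continuous_snd.comp
        (continuous_subtype_val.comp continuous_subtype_val))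
    have hψi : Function.Injective ψ := by
      intro y y' h
      refine Subtype.ext (huniq β 0 _ _ ?_ ?_ fun α hα n => congrFun h (⟨α, hα⟩, n))
      · rw [hFβ]
        exact y.2
      · rw [hFβ]
        exact y'.2
    exact (hψ.isClosedEmbedding hψi).isEmbedding.secondCountableTopology
  · rintro z₀ ⟨i, hi⟩
    refine ⟨i, ?_⟩
    intro δ hδ hiδ z hz hzq z' hz' hlv hne
    by_contra hcon
    push Not at hcon
    have hb := bits_eq (b := fun (y : Y) e => y.1.2 e) hbc hcon
    have h1 : z.1.1 = z'.1.1 := by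
      refine hi δ hδ hiδ z.1.1 hz hzq z'.1.1 hz' hlv fun ξ hξ => ?_
      exact hfh _ _ _ (eqf (hW ξ) (z.2 ξ) (z'.2 ξ) fun n => hb ξ hξ n)
    have h2 : z.1.1 ∈ OO S F h lev q δ (lev z.1.1) :=
      ⟨hz, rfl, i, hiδ, sepK_congr hzq.symm (hP.lev_eq _ _ hzq).symm hi⟩
    obtain ⟨n, hn⟩ := hA3 δ _ _ h2
    have h3 : C δ (n + 1) = A δ n := by
      simp only [C, if_pos hδ]
    refine hne (huniq δ (n + 1) z z' ?_ ?_ hb)
    · rw [h3]
      exact hn
    · rw [h3, ← h1]
      exact hn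

end MPd1327c.ZV
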